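import Pool.Agent.R632.VRC.Ra
import Pool.Agent.R632.VRC.Gauge

/-! Gluing homomorphisms with values in a non-commutative group. -/

set_option linter.unusedSectionVars false
set_option linter.dupNamespace false

namespace Pool.Agent.K4H11.RFRS

open Pool.Agent.R632.VRC

universe u

section transport

variable {B : Type u} [Group B] {X Y : Type u}

/-- transport of the wreath product along a bijection -/
def trans (e : X ≃ Y) : WrG B Y →* WrG B X where
  toFun w := ⟨(e.trans w.s).trans e.symm, fun x => w.t (e x)⟩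
  map_one' := by
    refine WrG.ext ?_ ?_
    · apply Equiv.ext
      intro x
      show e.symm (e x) = x
      exact e.symm_apply_apply x
    · rfl
  map_mul' a b := by
    refine WrG.ext ?_ ?_
    · apply Equiv.ext
      intro x
      show e.symm (a.s (b.s (e x))) = e.symm (a.s (e (e.symm (b.s (e x)))))
      rw [e.apply_symm_apply]
    · funext x
      show a.t (b.s (e x)) * b.t (e x) = a.t (e (e.symm (b.s (e x)))) * b.t (e x)
      rw [e.apply_symm_apply]

lemma trans_s (e : X ≃ Y) (w : WrG B Y) (x : X) : (trans e w).s x = e.symm (w.s (e x)) := rfl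

lemma trans_t (e : X ≃ Y) (w : WrG B Y) (x : X) : (trans e w).t x = w.t (e x) := rfl

end transport

section family

variable {P : Type u} [Group P] (A : Subgroup P) {B : Type u} [Group B] {R : Type u}
  (α : R → (A →* B))

/-- a family of induced homomorphisms -/
noncomputable def indf : P →* WrG B ((P ⧸ A) × R) where
  toFun g := ⟨⟨fun x => ((ind A (α x.2) g).s x.1, x.2), fun x => ((ind A (α x.2) g).s.symm x.1, x.2),
    fun x => Prod.ext ((ind A (α x.2) g).s.symm_apply_apply x.1) rfl,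
    fun x => Prod.ext ((ind A (α x.2) g).s.apply_symm_apply x.1) rfl⟩,
    fun x => (ind A (α x.2) g).t x.1⟩
  map_one' := by
    refine WrG.ext ?_ ?_
    · apply Equiv.ext
      rintro ⟨x, r⟩
      show ((ind A (α r) 1).s x, r) = (x, r)
      rw [map_one]
      rfl
    · funext x
      show (ind A (α x.2) 1).t x.1 = 1
      rw [map_one]
      rfl
  map_mul' a b := by
    refine WrG.ext ?_ ?_
    · apply Equiv.ext
      rintro ⟨x, r⟩
      show ((ind A (α r) (a * b)).s x, r) = ((ind A (α r) a).s ((ind A (α r) b).s x), r)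
      rw [map_mul]
      rfl
    · funext x
      show (ind A (α x.2) (a * b)).t x.1 =
        (ind A (α x.2) a).t ((ind A (α x.2) b).s x.1) * (ind A (α x.2) b).t x.1
      rw [map_mul]
      rfl

lemma indf_s (g : P) (x : P ⧸ A) (r : R) : (indf A α g).s (x, r) = (g • x, r) := rfl

lemma indf_t (g : P) (x : P ⧸ A) (r : R) : (indf A α g).t (x, r) = (ind A (α r) g).t x := rfl

end family

variable {ι : Type} [Fintype ι] [DecidableEq ι] [Nonempty ι] {G : ι → Type u} [∀ i, Group (G i)]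
  {H : Type u} [Group H] {φ : ∀ i, H →* G i} {Γ : Type u} [Group Γ] {o : ∀ i, G i →* Γ}

/-- Gluing, the non-commutative case. -/
theorem glueNA (hΓ : Amalg φ o) (A : ∀ i, Subgroup (G i)) (hA : ∀ i, (A i).Normal)
    (H0 : Subgroup H) (hH0 : ∀ i h, φ i h ∈ A i ↔ h ∈ H0) {J : Type u} {R : ι → Type u}
    (t : ∀ i, J → G i) (lam : ∀ i, J → DC (φ i) (A i) × R i)
    (hlam : ∀ i, Function.Bijective (lam i)) (ht : ∀ i π, cls (φ i) (A i) (t i π) = (lam i π).1)
    {B : Type u} [Group B] (α : ∀ i, R i → (A i →* B)) (hcomm : ∀ x y : H, x * y = y * x)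
    (c0 : H) (hc0 : ∀ h, h ∈ H0 ↔ ∃ n : ℤ, h = c0 ^ n) (e : J → B)
    (hV : ∀ i π (hm : (t i π)⁻¹ * φ i c0 * t i π ∈ A i), ∃ b : B,
      α i (lam i π).2 ⟨_, hm⟩ = b * e π * b⁻¹) :
    ∃ ψ : Γ →* WrG B ((H ⧸ H0) × J), ∀ i (r : R i), ∃ z : (H ⧸ H0) × J,
      (∀ g, (ψ (o i g)).s z = z → g ∈ A i) ∧ ∃ b : B, ∀ g (hg : g ∈ A i),
        (ψ (o i g)).t z = b * α i r ⟨g, hg⟩ * b⁻¹ := by
  classical
  have hbij := fun i => bij_EE (φ i) (A i) H0 (hH0 i) (t i) (lam i) (hlam i) (ht i)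
  obtain ⟨ρ, hρ⟩ := glue hΓ A hA H0 hH0 t lam hlam ht (fun _ _ _ => 0) (fun _ _ => HomOn.zero)
    (fun _ _ => 0) (fun _ _ _ _ => rfl) (fun _ _ => 0)
  let σ : Γ →* Equiv.Perm ((H ⧸ H0) × J) := Wr.perm.comp ρ
  let E : ∀ i, (H ⧸ H0) × J ≃ (G i ⧸ A i) × R i := fun i => Equiv.ofBijective _ (hbij i)
  let β : ∀ i, G i →* WrG B ((H ⧸ H0) × J) := fun i => (trans (E i)).comp (indf (A i) (α i))
  have hβ : ∀ i g, (β i g).s = σ (o i g) := by
    intro i g
    apply Equiv.ext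
    intro ω
    have h1 := nxt_spec (φ i) (A i) H0 (t i) (fun π => (lam i π).2) (hbij i) g ω
    have h2 := (hρ i g ω (nxt (φ i) (A i) H0 (t i) (fun π => (lam i π).2) (hbij i) g ω) h1.1
      h1.2).1
    exact h2.symm
  -- the action of the amalgamated subgroup
  have hact : ∀ i (y : H) (κ : H ⧸ H0) (π : J), σ (o i (φ i y)) (κ, π) = (y • κ, π) := by
    intro i y κ π
    have h1 : (Quotient.out (y • κ))⁻¹ * y * Quotient.out κ ∈ H0 := by
      rw [mul_assoc, ← QuotientGroup.eq, QuotientGroup.out_eq']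
      conv_lhs => rw [← QuotientGroup.out_eq' κ]
      rfl
    have h2 : (sg (φ i) H0 (t i) (y • κ, π))⁻¹ * φ i y * sg (φ i) H0 (t i) (κ, π) =
        (t i π)⁻¹ * φ i ((Quotient.out (y • κ))⁻¹ * y * Quotient.out κ) * t i π := by
      unfold sg
      simp only [map_mul, map_inv]
      group
    have h3 : (sg (φ i) H0 (t i) (y • κ, π))⁻¹ * φ i y * sg (φ i) H0 (t i) (κ, π) ∈ A i := by
      rw [h2]
      have := (hA i).conj_mem _ ((hH0 i _).mpr h1) (t i π)⁻¹
      rwa [inv_inv] at this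
    exact (hρ i (φ i y) (κ, π) (y • κ, π) rfl h3).1
  have hfix : ∀ (y : H) (κ : H ⧸ H0), y • κ = κ ↔ y ∈ H0 := by
    intro y κ
    obtain ⟨k, rfl⟩ := QuotientGroup.mk_surjective κ
    show (QuotientGroup.mk (y * k) : H ⧸ H0) = QuotientGroup.mk k ↔ _
    rw [eq_comm, QuotientGroup.eq]
    have h1 : k⁻¹ * (y * k) = y := by rw [hcomm y k]; group
    rw [h1]
  have hc0H : c0 ∈ H0 := (hc0 c0).mpr ⟨1, (zpow_one c0).symm⟩
  have hc0A : ∀ i, φ i c0 ∈ A i := fun i => (hH0 i c0).mpr hc0H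
  have hconj : ∀ i p, p⁻¹ * φ i c0 * p ∈ A i := by
    intro i p
    have := (hA i).conj_mem _ (hc0A i) p⁻¹
    rwa [inv_inv] at this
  choose bb hbb using fun i π => hV i π (hconj i (t i π))
  -- the correction
  have hcor : ∀ i (ω : (H ⧸ H0) × J), (sg (φ i) H0 (t i) ω)⁻¹ *
      Quotient.out (QuotientGroup.mk (sg (φ i) H0 (t i) ω) : G i ⧸ A i) ∈ A i := by
    intro i ω
    rw [← QuotientGroup.eq, QuotientGroup.out_eq']
  obtain ⟨ψ, hψ⟩ := gauge hΓ σ β hβ (fun _ => c0)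
    (by
      rintro i ⟨κ, π⟩ h hh
      rw [hact] at hh
      have h1 : h • κ = κ := congrArg Prod.fst hh
      exact (hc0 h).mp ((hfix h κ).mp h1))
    (by
      rintro i ⟨κ, π⟩
      rw [hact, (hfix c0 κ).mpr hc0H]) (fun ω => e ω.2)
    (fun i ω => (α i (lam i ω.2).2 ⟨_, hcor i ω⟩)⁻¹ * bb i ω.2)
    (by
      rintro i ω
      have h1 : (β i (φ i c0)).t ω = (ind (A i) (α i (lam i ω.2).2) (φ i c0)).t
        (QuotientGroup.mk (sg (φ i) H0 (t i) ω)) := rfl
      have h2 : φ i c0 • (QuotientGroup.mk (sg (φ i) H0 (t i) ω) : G i ⧸ A i) =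
          QuotientGroup.mk (sg (φ i) H0 (t i) ω) := by
        show (QuotientGroup.mk (φ i c0 * sg (φ i) H0 (t i) ω) : G i ⧸ A i) = _
        rw [eq_comm, QuotientGroup.eq, ← mul_assoc]
        exact hconj i _
      have h3 : (ind (A i) (α i (lam i ω.2).2) (φ i c0)).t
          (QuotientGroup.mk (sg (φ i) H0 (t i) ω)) = α i (lam i ω.2).2
            ((⟨_, hcor i ω⟩ : A i)⁻¹ * ⟨_, hconj i (t i ω.2)⟩ * ⟨_, hcor i ω⟩) := by
        show α i (lam i ω.2).2 _ = _
        congr 1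
        apply Subtype.ext
        show (Quotient.out (φ i c0 • (QuotientGroup.mk (sg (φ i) H0 (t i) ω) : G i ⧸ A i)))⁻¹ *
          φ i c0 * Quotient.out (QuotientGroup.mk (sg (φ i) H0 (t i) ω) : G i ⧸ A i) =
          ((sg (φ i) H0 (t i) ω)⁻¹ *
            Quotient.out (QuotientGroup.mk (sg (φ i) H0 (t i) ω) : G i ⧸ A i))⁻¹ *
          ((t i ω.2)⁻¹ * φ i c0 * t i ω.2) * ((sg (φ i) H0 (t i) ω)⁻¹ *
            Quotient.out (QuotientGroup.mk (sg (φ i) H0 (t i) ω) : G i ⧸ A i))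
        rw [h2]
        have h4 : (t i ω.2)⁻¹ * φ i c0 * t i ω.2 =
            (sg (φ i) H0 (t i) ω)⁻¹ * φ i c0 * sg (φ i) H0 (t i) ω := by
          show _ = (φ i (Quotient.out ω.1) * t i ω.2)⁻¹ * φ i c0 * (φ i (Quotient.out ω.1) * t i ω.2)
          have h5 : φ i c0 = (φ i (Quotient.out ω.1))⁻¹ * φ i c0 * φ i (Quotient.out ω.1) := by
            rw [← map_inv, ← map_mul, ← map_mul, mul_assoc, hcomm c0]
            group
          conv_lhs => rw [h5]
          group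
        rw [h4]
        group
      rw [h1, h3, map_mul, map_mul, map_inv, hbb]
      group)
  refine ⟨ψ, fun i r => ?_⟩
  obtain ⟨w, hw⟩ := hψ i
  let ω0 : (H ⧸ H0) × J := (E i).symm (QuotientGroup.mk 1, r)
  have hE : E i ω0 = (QuotientGroup.mk 1, r) := (E i).apply_symm_apply _
  have hβs : ∀ g, (β i g).s ω0 = (E i).symm (g • (QuotientGroup.mk 1 : G i ⧸ A i), r) := by
    intro g
    show (E i).symm ((indf (A i) (α i) g).s (E i ω0)) = _
    rw [hE]
    rfl
  have hβt : ∀ g, (β i g).t ω0 = (ind (A i) (α i r) g).t (QuotientGroup.mk 1) := by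
    intro g
    show (indf (A i) (α i) g).t (E i ω0) = _
    rw [hE]
    rfl
  have hws : w.s⁻¹ (w.s ω0) = ω0 := w.s.symm_apply_apply ω0
  refine ⟨w.s ω0, fun g hg => ?_, w.t ω0 * (α i r ⟨_, out_one_mem (A i)⟩)⁻¹, fun g hg => ?_⟩
  · rw [hw] at hg
    have h1 : w.s ((β i g).s (w.s⁻¹ (w.s ω0))) = w.s ω0 := hg
    rw [hws] at h1
    have h2 := w.s.injective h1
    rw [hβs] at h2
    have h3 := congrArg (E i) h2
    rw [(E i).apply_symm_apply, hE] at h3
    have h4 : g • (QuotientGroup.mk 1 : G i ⧸ A i) = QuotientGroup.mk 1 := congrArg Prod.fst h3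
    exact (smul_one_eq (A i)).mp h4
  · have h1 : (ψ (o i g)).t (w.s ω0) = w.t ((β i g).s (w.s⁻¹ (w.s ω0))) *
        (β i g).t (w.s⁻¹ (w.s ω0)) * (w.t (w.s⁻¹ (w.s ω0)))⁻¹ := by
      rw [hw]
      rfl
    have h2 : (β i g).s ω0 = ω0 := by
      rw [hβs, (smul_one_eq (A i)).mpr hg]
    rw [h1, hws, h2, hβt, ind_t_one (A i) (α i r) hg, map_mul, map_mul, map_inv]
    group

end Pool.Agent.K4H11.RFRS
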