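import Pool.Agent.K4H11.RFRS.Tower

/-! The choice of the subgroups of finite index of the factors. -/

set_option linter.unusedSectionVars false
set_option linter.dupNamespace false

namespace Pool.Agent.K4H11.RFRS

open Pool.Agent.R632.VRC

universe u

variable {P : Type u} [Group P]

lemma step_normal (m : ℕ) (U : Subgroup P) [hU : U.Normal] : (step m U).Normal := by
  constructor
  intro x hx g
  refine ⟨hU.conj_mem _ hx.1 g, fun f hf => ?_⟩
  refine hx.2 (fun y => f (g * y * g⁻¹)) ?_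
  intro a ha b hb
  show f (g * (a * b) * g⁻¹) = f (g * a * g⁻¹) + f (g * b * g⁻¹)
  rw [← hf _ (hU.conj_mem _ ha g) _ (hU.conj_mem _ hb g)]
  congr 1
  group

lemma HomOn_conj {U : Subgroup P} (hU : U.Normal) {f : P → ℤ} (hf : HomOn U f) (p : P) :
    HomOn U (fun y => f (p⁻¹ * y * p)) := by
  intro a ha b hb
  show f (p⁻¹ * (a * b) * p) = f (p⁻¹ * a * p) + f (p⁻¹ * b * p)
  have h1 : ∀ x ∈ U, p⁻¹ * x * p ∈ U := fun x hx => by
    have := hU.conj_mem x hx p⁻¹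
    rwa [inv_inv] at this
  rw [← hf _ (h1 a ha) _ (h1 b hb)]
  congr 1
  group

/-- the power of `c` in a subgroup of finite index -/
lemma exists_exp (c : P) {N : Subgroup P} (hN : N.FiniteIndex) :
    ∃ k : ℕ, 0 < k ∧ ∀ n : ℤ, c ^ n ∈ N ↔ (k : ℤ) ∣ n := by
  let V : AddSubgroup ℤ :=
    { carrier := {n | c ^ n ∈ N}
      add_mem' := fun {a b} ha hb => by
        show c ^ (a + b) ∈ N
        rw [zpow_add]
        exact N.mul_mem ha hb
      zero_mem' := by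
        show c ^ (0 : ℤ) ∈ N
        rw [zpow_zero]
        exact N.one_mem
      neg_mem' := fun {a} ha => by
        show c ^ (-a) ∈ N
        rw [zpow_neg]
        exact N.inv_mem ha }
  obtain ⟨k, hk⟩ := Int.subgroup_cyclic V
  have hmem : ∀ n : ℤ, c ^ n ∈ N ↔ k ∣ n := by
    intro n
    have h4 : c ^ n ∈ N ↔ n ∈ V := Iff.rfl
    rw [h4, hk, AddSubgroup.mem_closure_singleton]
    constructor
    · rintro ⟨q, hq⟩
      exact ⟨q, by rw [← hq, smul_eq_mul, mul_comm]⟩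
    · rintro ⟨q, hq⟩
      exact ⟨q, by rw [hq, smul_eq_mul, mul_comm]⟩
  refine ⟨k.natAbs, ?_, fun n => by rw [hmem, Int.natAbs_dvd]⟩
  obtain ⟨m, hm0, _, hm⟩ := Subgroup.exists_pow_mem_of_index_ne_zero hN.index_ne_zero c
  rw [← zpow_natCast, hmem] at hm
  apply Nat.pos_of_ne_zero
  intro h0
  rw [Int.natAbs_eq_zero] at h0
  rw [h0, zero_dvd_iff] at hm
  have : m = 0 := by exact_mod_cast hm
  omega

/-- the starting subgroup -/
lemma exists_start (hfg : Group.FG P) {K : Subgroup P} (hK : K.FiniteIndex) (hKr : IsRFRS K) {c : P}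
    (hc : ∀ n : ℤ, c ^ n = 1 → n = 0) :
    ∃ (N : Subgroup P) (k : ℕ) (f : P → ℤ), N.Normal ∧ N.FiniteIndex ∧ TT N ∧ 0 < k ∧
      (∀ n : ℤ, c ^ n ∈ N ↔ (k : ℤ) ∣ n) ∧ HomOn N f ∧ f (c ^ k) ≠ 0 := by
  have hKT : TT K := hKr.TT
  obtain ⟨q, hq0, _, hq⟩ := Subgroup.exists_pow_mem_of_index_ne_zero hK.index_ne_zero c
  have hq0' : q ≠ 0 := by omega
  have hx1 : c ^ q ≠ 1 := by
    intro h
    apply hq0'
    have := hc q (by rw [zpow_natCast]; exact h)
    exact_mod_cast this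
  have hex : ∃ i, c ^ q ∉ tw K i := by
    by_contra hcon
    push Not at hcon
    exact hx1 (hKT _ hcon)
  classical
  obtain ⟨i, hi, hi'⟩ : ∃ i, c ^ q ∈ tw K i ∧ c ^ q ∉ tw K (i + 1) := by
    have h0 : Nat.find hex ≠ 0 := by
      intro h0
      have := Nat.find_spec hex
      rw [h0] at this
      exact this hq
    obtain ⟨j, hj⟩ := Nat.exists_eq_succ_of_ne_zero h0
    refine ⟨j, ?_, ?_⟩
    · by_contra h
      have := Nat.find_min' hex h
      omega
    · have := Nat.find_spec hex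
      rw [hj] at this
      exact this
  obtain ⟨f, hf, hfx⟩ : ∃ f, HomOn (tw K i) f ∧ f (c ^ q) ≠ 0 := by
    by_contra hcon
    push Not at hcon
    apply hi'
    refine ⟨hi, fun f hf => ?_⟩
    rw [hcon f hf]
    exact dvd_zero _
  have hL : (tw K i).FiniteIndex := tw_finiteIndex hK i
  have hN : (tw K i).normalCore.FiniteIndex := inferInstance
  obtain ⟨k, hk0, hk⟩ := exists_exp c hN
  refine ⟨(tw K i).normalCore, k, f, inferInstance, hN,
    hKT.mono ((Subgroup.normalCore_le _).trans (tw_le K i)), hk0, hk,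
    hf.mono (Subgroup.normalCore_le _), ?_⟩
  intro h0
  have h1 : c ^ k ∈ tw K i := by
    apply Subgroup.normalCore_le
    rw [← zpow_natCast, hk]
  have h2 := hf.zpow h1 (q : ℤ)
  have h3 := hf.zpow hi (k : ℤ)
  rw [h0, mul_zero] at h2
  have h4 : (c ^ k) ^ (q : ℤ) = (c ^ q) ^ (k : ℤ) := by
    rw [← zpow_natCast, ← zpow_natCast, ← zpow_mul, ← zpow_mul, mul_comm]
  rw [h4, h3] at h2
  rcases mul_eq_zero.mp h2 with h5 | h5
  · have : k = 0 := by exact_mod_cast h5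
    omega
  · exact hfx h5

/-- dividing a homomorphism -/
lemma HomOn_div {U : Subgroup P} {f : P → ℤ} (hf : HomOn U f) {m : ℤ}
    (hm : ∀ x ∈ U, m ∣ f x) : HomOn U (fun x => f x / m) := by
  intro a ha b hb
  show f (a * b) / m = f a / m + f b / m
  rw [hf a ha b hb, Int.add_ediv_of_dvd_left (hm a ha)]

/-- The data of a factor. -/
theorem exists_data_gen (hfg : Group.FG P) {K : Subgroup P} (hK : K.FiniteIndex) (hKr : IsRFRS K)
    {c : P} (hc : ∀ n : ℤ, c ^ n = 1 → n = 0) :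
    ∃ k : ℕ, 0 < k ∧ ∀ t : ℕ, 0 < t → ∃ A : Subgroup P, A.Normal ∧ A.FiniteIndex ∧ TT A ∧
      (∀ n : ℤ, c ^ n ∈ A ↔ ((k * t : ℕ) : ℤ) ∣ n) ∧ ∃ ψ : P → ℤ, HomOn A ψ ∧
        ψ (c ^ (k * t)) = 1 := by
  obtain ⟨N, k, f, hNn, hNf, hNT, hk0, hk, hf, hfk⟩ := exists_start hfg hK hKr hc
  have hckN : c ^ k ∈ N := by rw [← zpow_natCast, hk]
  -- the values at `c ^ k`
  let V : AddSubgroup ℤ :=
    { carrier := {n | ∃ ψ, HomOn N ψ ∧ ψ (c ^ k) = n}
      add_mem' := by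
        rintro a b ⟨ψ, hψ, rfl⟩ ⟨ψ', hψ', rfl⟩
        refine ⟨fun x => ψ x + 1 * ψ' x, hψ.lin hψ' 1, ?_⟩
        show ψ (c ^ k) + 1 * ψ' (c ^ k) = _
        rw [one_mul]
      zero_mem' := ⟨fun _ => 0, HomOn.zero, rfl⟩
      neg_mem' := by
        rintro a ⟨ψ, hψ, rfl⟩
        refine ⟨fun x => -1 * ψ x, hψ.smul (-1), ?_⟩
        ring }
  obtain ⟨g, hg⟩ := Int.subgroup_cyclic V
  have hgV : g ∈ V := by rw [hg]; exact AddSubgroup.subset_closure rfl
  obtain ⟨ψ0, hψ0, hψ0g⟩ := hgV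
  have hdvd : ∀ ψ, HomOn N ψ → g ∣ ψ (c ^ k) := by
    intro ψ hψ
    have h1 : ψ (c ^ k) ∈ V := ⟨ψ, hψ, rfl⟩
    rw [hg, AddSubgroup.mem_closure_singleton] at h1
    obtain ⟨n, hn⟩ := h1
    exact ⟨n, by rw [← hn, smul_eq_mul, mul_comm]⟩
  have hg0 : g ≠ 0 := by
    rintro rfl
    exact hfk (zero_dvd_iff.mp (hdvd f hf))
  refine ⟨k, hk0, fun t ht => ?_⟩
  have hNfg : Group.FG N := Subgroup.fg_of_index_ne_zero N
  have hm0 : t * g.natAbs ≠ 0 := mul_ne_zero (by omega) (Int.natAbs_ne_zero.mpr hg0)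
  have hAN : step (t * g.natAbs) N ≤ N := step_le _ _
  have htg : ((t * g.natAbs : ℕ) : ℤ) ∣ t * g := by
    rw [Nat.cast_mul]
    exact mul_dvd_mul_left _ ((Int.natAbs_dvd).mpr dvd_rfl)
  have htg' : (t * g : ℤ) ∣ ((t * g.natAbs : ℕ) : ℤ) := by
    rw [Nat.cast_mul]
    exact mul_dvd_mul_left _ (Int.dvd_natAbs.mpr dvd_rfl)
  refine ⟨step (t * g.natAbs) N, step_normal _ _, step_finiteIndex hm0 hNf hNfg, hNT.mono hAN, ?_,
    fun x => ψ0 x / (t * g), ?_, ?_⟩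
  · intro n
    constructor
    · intro hn
      obtain ⟨a, rfl⟩ := (hk n).mp hn.1
      have h1 := hn.2 ψ0 hψ0
      rw [zpow_mul, hψ0.zpow (by rw [zpow_natCast]; exact hckN), zpow_natCast, hψ0g] at h1
      have h2 : (t : ℤ) * g ∣ a * g := htg'.trans h1
      have h3 : (t : ℤ) ∣ a := Int.dvd_of_mul_dvd_mul_right hg0 h2
      push_cast
      exact mul_dvd_mul_left _ h3
    · rintro ⟨q, rfl⟩
      refine ⟨?_, fun ψ hψ => ?_⟩
      · rw [hk]
        push_cast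
        exact ⟨t * q, by ring⟩
      · have h1 : c ^ (((k * t : ℕ) : ℤ) * q) = (c ^ k) ^ ((t : ℤ) * q) := by
          rw [← zpow_natCast c k, ← zpow_mul]
          congr 1
          push_cast
          ring
        rw [h1, hψ.zpow hckN]
        refine htg.trans ?_
        obtain ⟨r, hr⟩ := hdvd ψ hψ
        rw [hr]
        exact ⟨q * r, by ring⟩
  · exact HomOn_div (hψ0.mono hAN) fun x hx => htg'.trans (hx.2 ψ0 hψ0)
  · show ψ0 (c ^ (k * t)) / (t * g) = 1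
    have h1 : c ^ (k * t) = (c ^ k) ^ (t : ℤ) := by
      rw [zpow_natCast, ← pow_mul]
    rw [h1, hψ0.zpow hckN, hψ0g]
    exact Int.ediv_self (mul_ne_zero (by exact_mod_cast ht.ne') hg0)

/-- The data of a factor in whose abelianization the cyclic group is infinite. -/
theorem exists_data_ab (hfg : Group.FG P) {K : Subgroup P} (hK : K.FiniteIndex) (hKr : IsRFRS K)
    {c : P} (hc : ∀ n : ℤ, c ^ n = 1 → n = 0) {e : P → ℤ} (he : HomOn ⊤ e) (hec : e c ≠ 0) :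
    ∃ k : ℕ, 0 < k ∧ ∀ t : ℕ, 0 < t → ∃ A : Subgroup P, A.Normal ∧ A.FiniteIndex ∧ TT A ∧
      (∀ n : ℤ, c ^ n ∈ A ↔ ((k * t : ℕ) : ℤ) ∣ n) ∧ ∃ ψ : P → ℤ, HomOn A ψ ∧
        ∀ p : P, ψ (p⁻¹ * c ^ (k * t) * p) = 1 := by
  obtain ⟨N, k, f, hNn, hNf, hNT, hk0, hk, hf, hfk⟩ := exists_start hfg hK hKr hc
  have hckN : c ^ k ∈ N := by rw [← zpow_natCast, hk]
  have hk0' : (k : ℤ) ≠ 0 := by exact_mod_cast hk0.ne'
  have hke0 : (k : ℤ) * e c ≠ 0 := mul_ne_zero hk0' hec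
  have hepow : ∀ n : ℤ, e (c ^ n) = n * e c := fun n => he.zpow (Subgroup.mem_top c) n
  have heconj : ∀ p x : P, e (p⁻¹ * x * p) = e x := fun p x => by
    have := he.conj (Subgroup.mem_top p⁻¹) (Subgroup.mem_top x)
    rwa [inv_inv] at this
  let N' : Subgroup P :=
    { carrier := {x | x ∈ N ∧ (k : ℤ) * e c ∣ e x}
      mul_mem' := fun {a b} ha hb => ⟨N.mul_mem ha.1 hb.1, by
        rw [he a (Subgroup.mem_top a) b (Subgroup.mem_top b)]
        exact dvd_add ha.2 hb.2⟩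
      one_mem' := ⟨N.one_mem, by rw [he.one]; exact dvd_zero _⟩
      inv_mem' := fun {a} ha => ⟨N.inv_mem ha.1, by
        rw [he.inv (Subgroup.mem_top a)]
        exact dvd_neg.mpr ha.2⟩ }
  have hN'N : N' ≤ N := fun x hx => hx.1
  have hN'n : N'.Normal := by
    constructor
    intro x hx g
    refine ⟨hNn.conj_mem x hx.1 g, ?_⟩
    rw [he.conj (Subgroup.mem_top g) (Subgroup.mem_top x)]
    exact hx.2
  have hNfg : Group.FG N := Subgroup.fg_of_index_ne_zero N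
  have hN'f : N'.FiniteIndex := by
    have h1 : (step (k * (e c).natAbs) N).FiniteIndex :=
      step_finiteIndex (mul_ne_zero hk0.ne' (Int.natAbs_ne_zero.mpr hec)) hNf hNfg
    refine Subgroup.finiteIndex_of_le (H := step (k * (e c).natAbs) N) fun x hx => ⟨hx.1, ?_⟩
    have h2 := hx.2 e (he.mono le_top)
    refine dvd_trans ?_ h2
    rw [Nat.cast_mul]
    exact mul_dvd_mul_left _ (Int.dvd_natAbs.mpr dvd_rfl)
  have hckN' : c ^ k ∈ N' := by
    refine ⟨hckN, ?_⟩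
    rw [← zpow_natCast, hepow]
  let Φ : P → ℤ := fun x => e x / ((k : ℤ) * e c)
  have hΦ : HomOn N' Φ := HomOn_div (he.mono le_top) fun x hx => hx.2
  have hΦc : ∀ (p : P) (n : ℤ), Φ (p⁻¹ * (c ^ k) ^ n * p) = n := by
    intro p n
    show e (p⁻¹ * (c ^ k) ^ n * p) / ((k : ℤ) * e c) = n
    rw [heconj, ← zpow_natCast c k, ← zpow_mul, hepow]
    have h1 : (k : ℤ) * n * e c = n * ((k : ℤ) * e c) := by ring
    rw [h1, Int.mul_ediv_cancel _ hke0]
  refine ⟨k, hk0, fun t ht => ?_⟩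
  have ht0 : (t : ℤ) ≠ 0 := by exact_mod_cast ht.ne'
  have hN'fg : Group.FG N' := Subgroup.fg_of_index_ne_zero N'
  have hAN : step t N' ≤ N' := step_le _ _
  refine ⟨step t N', step_normal _ _, step_finiteIndex ht.ne' hN'f hN'fg,
    hNT.mono (hAN.trans hN'N), ?_, fun x => Φ x / t, ?_, ?_⟩
  · intro n
    constructor
    · intro hn
      obtain ⟨a, rfl⟩ := (hk n).mp (hN'N hn.1)
      have h1 := hn.2 Φ hΦ
      have h2 := hΦc 1 a
      rw [inv_one, one_mul, mul_one] at h2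
      rw [zpow_mul, zpow_natCast, h2] at h1
      push_cast
      exact mul_dvd_mul_left _ h1
    · rintro ⟨q, rfl⟩
      have h1 : c ^ (((k * t : ℕ) : ℤ) * q) = (c ^ k) ^ ((t : ℤ) * q) := by
        rw [← zpow_natCast c k, ← zpow_mul]
        congr 1
        push_cast
        ring
      refine ⟨?_, fun ψ hψ => ?_⟩
      · rw [h1]
        exact N'.zpow_mem hckN' _
      · rw [h1, hψ.zpow hckN']
        exact ⟨q * ψ (c ^ k), by ring⟩
  · exact HomOn_div (hΦ.mono hAN) fun x hx => hx.2 Φ hΦ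
  · intro p
    show Φ (p⁻¹ * c ^ (k * t) * p) / t = 1
    have h1 : c ^ (k * t) = (c ^ k) ^ (t : ℤ) := by
      rw [zpow_natCast, ← pow_mul]
    rw [h1, hΦc]
    exact Int.ediv_self ht0

end Pool.Agent.K4H11.RFRS
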