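import Pool.Agent.K4H11.RFRS.Tower
import Pool.Agent.R632.VRC.Main

/-! Closed walks in the quotients of the Bass-Serre tree. -/

set_option linter.unusedSectionVars false
set_option linter.dupNamespace false

namespace Pool.Agent.K4H11.RFRS

open Pool.Agent.R632.VRC

universe u

variable {G : Bool → Type u} [∀ i, Group (G i)] {H : Type u}
  [Group H] {φ : ∀ i, H →* G i} {Γ : Type u} [Group Γ] {o : ∀ i, G i →* Γ}

lemma letters (hΓ : Amalg φ o) {L : List (Σ i, G i)} (hL : MinWord o L) (hlen : 2 ≤ L.length)
    (j : ℕ) (hj : j < L.length) :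
    (L[j]).1 ≠ (L[(j + 1) % L.length]'(Nat.mod_lt _ (by omega))).1 ∧
      (L[j]).2 ∉ (φ (L[j]).1).range := by
  have h1 := hL.rotate j
  have hlen' : (L.rotate j).length = L.length := List.length_rotate ..
  rcases h2 : L.rotate j with _ | ⟨a', _ | ⟨b', t'⟩⟩
  · rw [h2] at hlen'
    simp at hlen'
    omega
  · rw [h2] at hlen'
    simp at hlen'
    omega
  · rw [h2] at h1
    have h3 := minWord_head hΓ h1
    have h4 : a' = L[j] := by
      have h5 : (L.rotate j)[0]'(by omega) = a' := by simp [h2]
      rw [← h5, List.getElem_rotate]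
      congr 1
      rw [zero_add]
      exact Nat.mod_eq_of_lt hj
    have h6 : b' = L[(j + 1) % L.length]'(Nat.mod_lt _ (by omega)) := by
      have h5 : (L.rotate j)[1]'(by omega) = b' := by simp [h2]
      rw [← h5, List.getElem_rotate]
      congr 1
      rw [add_comm]
    rw [← h4, ← h6]
    exact h3

lemma stable {f : ℕ → ℕ} (hf : Antitone f) (i0 : ℕ) : ∃ n, i0 ≤ n ∧ f (n + 1) = f n := by
  by_contra hcon
  push Not at hcon
  have h1 : ∀ m, f (i0 + m) + m ≤ f i0 := by
    intro m
    induction m with
    | zero => simp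
    | succ m ih =>
      have h2 := hcon (i0 + m) (by omega)
      have h3 := hf (show i0 + m ≤ i0 + m + 1 by omega)
      have h4 : i0 + (m + 1) = i0 + m + 1 := by omega
      rw [h4]
      omega
  have h2 := h1 (f i0 + 1)
  omega

/-- the types of the vertices of the walk -/
def ty (b0 : Bool) (j : ℕ) : Bool := if j % 2 = 0 then b0 else !b0

lemma ty_succ (b0 : Bool) (j : ℕ) : ty b0 (j + 1) = !(ty b0 j) := by
  unfold ty
  rcases Nat.mod_two_eq_zero_or_one j with h | h
  · rw [if_pos h, if_neg (show ¬ (j + 1) % 2 = 0 by omega)]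
  · rw [if_neg (show ¬ j % 2 = 0 by omega), if_pos (show (j + 1) % 2 = 0 by omega), Bool.not_not]

/-- The criterion: if the vertex groups and the edge group are closed, the whole group is
separated. -/
theorem walk (hΓ : Amalg φ o) (T : ℕ → Subgroup Γ) (hTn : ∀ i, (T i).Normal)
    (hT : ∀ i, T (i + 1) ≤ T i)
    (hdiv : ∀ i, ∀ f : Γ → ℤ, HomOn (T i) f → ∀ x ∈ T (i + 1), ∃ m : ℕ, 2 ≤ m ∧ (m : ℤ) ∣ f x)
    (h1 : ∀ k (g : G k), (∀ i, o k g ∈ T i) → o k g = 1)
    (h2 : ∀ k (g : G k), (∀ i, ∃ h : H, (o k (φ k h))⁻¹ * o k g ∈ T i) → g ∈ (φ k).range)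
    (x : Γ) (hx : ∀ i, x ∈ T i) : x = 1 := by
  classical
  have hTa : ∀ {i j : ℕ}, i ≤ j → T j ≤ T i := fun {i j} h => antitone_nat_of_succ_le hT h
  obtain ⟨L, ⟨y, hy⟩, hL⟩ : ∃ L : List (Σ i, G i), (∃ y : Γ, x = y * ev o L * y⁻¹) ∧
      MinWord o L := by
    have hex : ∃ n : ℕ, ∃ L : List (Σ i, G i), (∃ y : Γ, x = y * ev o L * y⁻¹) ∧ L.length = n := by
      obtain ⟨L, hL⟩ := hΓ.gen x
      exact ⟨L.length, L, ⟨1, by rw [hL]; unfold ev; group⟩, rfl⟩
    obtain ⟨L, ⟨y, hy⟩, hLn⟩ := Nat.find_spec hex
    refine ⟨L, ⟨y, hy⟩, ?_⟩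
    rintro L' ⟨z, hz⟩
    rw [hLn]
    apply Nat.find_min' hex
    refine ⟨L', ⟨y * z⁻¹, ?_⟩, rfl⟩
    rw [hz, hy]
    group
  have hLT : ∀ i, ev o L ∈ T i := by
    intro i
    have h3 := (hTn i).conj_mem _ (hx i) y⁻¹
    rw [hy] at h3
    convert h3 using 1
    group
  have hgoal : ev o L = 1 → x = 1 := by
    intro h
    rw [hy, h]
    group
  apply hgoal
  rcases hn : L with _ | ⟨a, _ | ⟨b, t⟩⟩
  · rfl
  · rw [ev_cons, ev_nil, mul_one]
    apply h1
    intro i
    have h3 := hLT i
    rwa [hn, ev_cons, ev_nil, mul_one] at h3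
  · exfalso
    have hlen : 2 ≤ L.length := by
      rw [hn]
      simp
    clear hn t b a
    have hlet := letters hΓ hL hlen
    -- the types
    let b0 : Bool := !(L[0]'(by omega)).1
    have hty : ∀ j (hj : j < L.length), (L[j]).1 = ty b0 (j + 1) := by
      intro j
      induction j with
      | zero =>
        intro hj
        rw [ty_succ]
        show _ = !(ty b0 0)
        have h3 : ty b0 0 = b0 := rfl
        rw [h3]
        show _ = !(!(L[0]'(by omega)).1)
        rw [Bool.not_not]
      | succ j ih =>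
        intro hj
        have h3 := (hlet j (by omega)).1
        have h4 : (L[(j + 1) % L.length]'(Nat.mod_lt _ (by omega))) = L[j + 1] := by
          congr 1
          exact Nat.mod_eq_of_lt hj
        rw [h4, ih (by omega)] at h3
        rw [ty_succ b0 (j + 1)]
        exact (Bool.eq_not.mpr h3.symm)
    have heven : ty b0 0 = ty b0 L.length := by
      have h3 := (hlet (L.length - 1) (by omega)).1
      have h4 : (L[(L.length - 1 + 1) % L.length]'(Nat.mod_lt _ (by omega))) = L[0]'(by omega) := by
        congr 1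
        rw [Nat.sub_add_cancel (by omega), Nat.mod_self]
      rw [h4, hty _ (by omega), hty 0 (by omega), Nat.sub_add_cancel (by omega)] at h3
      rw [ty_succ] at h3
      have h5 := Bool.eq_not.mpr h3
      rw [Bool.not_not] at h5
      exact h5.symm
    -- the vertices
    let W : ℕ → Γ := fun j => ev o (L.drop j)
    have hW : ∀ j (hj : j < L.length), W j = o (L[j]).1 (L[j]).2 * W (j + 1) := by
      intro j hj
      show ev o (L.drop j) = _
      rw [List.drop_eq_getElem_cons hj, ev_cons]
    have hW0 : W 0 = ev o L := by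
      show ev o (L.drop 0) = _
      rw [List.drop_zero]
    have hWl : W L.length = 1 := by
      show ev o (L.drop L.length) = _
      rw [List.drop_length, ev_nil]
    -- the relations
    let Rel : ℕ → ℕ → ℕ → Prop := fun i p q => ty b0 p = ty b0 q ∧
      ∃ g : G (ty b0 p), (o _ g)⁻¹ * W p * (W q)⁻¹ ∈ T i
    have hRel : ∀ i p q, Rel (i + 1) p q → Rel i p q := by
      rintro i p q ⟨h3, g, hg⟩
      exact ⟨h3, g, hT i hg⟩
    let F : ℕ → Finset (ℕ × ℕ) := fun i =>
      (Finset.range (L.length + 1) ×ˢ Finset.range (L.length + 1)).filter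
        (fun p => Rel i p.1 p.2)
    have hF : ∀ i, F (i + 1) ⊆ F i := by
      intro i p hp
      rw [Finset.mem_filter] at hp ⊢
      exact ⟨hp.1, hRel i _ _ hp.2⟩
    have hFa : Antitone (fun i => (F i).card) :=
      antitone_nat_of_succ_le fun i => Finset.card_le_card (hF i)
    -- the bound
    obtain ⟨i0, hi0⟩ : ∃ i0, ∀ i, i0 ≤ i → ∀ j (hj : j < L.length), ∀ h : H,
        (o (L[j]).1 (φ (L[j]).1 h))⁻¹ * o (L[j]).1 (L[j]).2 ∉ T i := by
      have h3 : ∀ j : Fin L.length, ∃ i, ∀ h : H,
          (o (L[j]).1 (φ (L[j]).1 h))⁻¹ * o (L[j]).1 (L[j]).2 ∉ T i := by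
        intro j
        by_contra hcon
        push Not at hcon
        exact (hlet j j.2).2 (h2 _ _ hcon)
      choose f hf using h3
      refine ⟨Finset.univ.sup f, fun i hi j hj h hh => ?_⟩
      have h4 : f ⟨j, hj⟩ ≤ i := (Finset.le_sup (Finset.mem_univ _)).trans hi
      exact hf ⟨j, hj⟩ h (hTa h4 hh)
    obtain ⟨i, hi, hFi⟩ := stable hFa i0
    have hFeq : F (i + 1) = F i := Finset.eq_of_subset_of_card_le (hF i) hFi.ge
    have hTi := hTn i
    -- a shortest closed walk
    have hex : ∃ d, 0 < d ∧ ∃ a, a + d ≤ L.length ∧ Rel i a (a + d) := by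
      refine ⟨L.length, by omega, 0, by omega, ?_⟩
      rw [zero_add]
      refine ⟨heven, 1, ?_⟩
      rw [map_one, inv_one, one_mul, hWl, inv_one, mul_one, hW0]
      exact hLT i
    obtain ⟨d, ⟨hd0, a, had, hR⟩, hmin⟩ : ∃ d, (0 < d ∧ ∃ a, a + d ≤ L.length ∧ Rel i a (a + d)) ∧
        ∀ d', 0 < d' → d' < d → ∀ a, a + d' ≤ L.length → ¬ Rel i a (a + d') :=
      ⟨Nat.find hex, Nat.find_spec hex, fun d' h3 h4 a h5 h6 =>
        Nat.find_min hex h4 ⟨h3, a, h5, h6⟩⟩
    have hd2 : 2 ≤ d := by
      by_contra hcon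
      have h3 : d = 1 := by omega
      subst h3
      have h4 := hR.1
      rw [ty_succ] at h4
      rcases ty b0 a with _ | _ <;> simp at h4
    have hR' : Rel (i + 1) a (a + d) := by
      have h3 : (a, a + d) ∈ F i := by
        rw [Finset.mem_filter, Finset.mem_product, Finset.mem_range, Finset.mem_range]
        exact ⟨⟨by omega, by omega⟩, hR⟩
      rw [← hFeq, Finset.mem_filter] at h3
      exact h3.2
    -- the edges
    let oh : H → Γ := fun h => o true (φ true h)
    have hoh : ∀ k h, o k (φ k h) = oh h := fun k h => hΓ.comp k true h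
    have hclaim : ∀ j, a < j → j < a + d → ¬ ∃ h : H, (oh h)⁻¹ * W j * (W a)⁻¹ ∈ T i := by
      rintro j hj1 hj2 ⟨h, hh⟩
      by_cases htj : ty b0 a = ty b0 j
      · apply hmin (j - a) (by omega) (by omega) a (by omega)
        have h3 : a + (j - a) = j := by omega
        rw [h3]
        refine ⟨htj, (φ _ h)⁻¹, ?_⟩
        have h4 := hTi.conj_mem _ (inv_mem hh) (oh h)
        rw [map_inv, inv_inv, hoh]
        convert h4 using 1
        group
      · have hta : ty b0 (a + 1) = ty b0 j := by
          rw [ty_succ]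
          exact (Bool.eq_not.mpr (Ne.symm htj)).symm
        have haL : a < L.length := by omega
        have hWa := hW a haL
        by_cases hja : j = a + 1
        · subst hja
          apply hi0 i hi a haL h⁻¹
          have h3 := hTi.conj_mem _ (inv_mem hh) (oh h)
          rw [map_inv, map_inv, inv_inv, hoh]
          convert h3 using 1
          rw [hWa]
          group
        · apply hmin (j - (a + 1)) (by omega) (by omega) (a + 1) (by omega)
          have h3 : a + 1 + (j - (a + 1)) = j := by omega
          rw [h3]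
          have h5 : ∃ g : G (ty b0 (a + 1)), o _ g = (o (L[a]).1 (L[a]).2)⁻¹ * (oh h)⁻¹ := by
            rw [← hty a haL]
            exact ⟨(L[a]).2⁻¹ * (φ _ h)⁻¹, by rw [map_mul, map_inv, map_inv, hoh]⟩
          obtain ⟨g, hg⟩ := h5
          refine ⟨hta, g, ?_⟩
          have h4 := hTi.conj_mem _ (inv_mem hh) (oh h)
          rw [hg]
          convert h4 using 1
          rw [hWa]
          group
    -- the cocycle
    let om : Γ ⧸ T i → ℤ := fun q => if ∃ h : H, q = QuotientGroup.mk (oh h * W a) then 1 else 0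
    have hom_inv : ∀ (h : H) q, om (oh h • q) = om q := by
      intro h q
      have h3 : (∃ h' : H, oh h • q = QuotientGroup.mk (oh h' * W a)) ↔
          ∃ h' : H, q = QuotientGroup.mk (oh h' * W a) := by
        constructor
        · rintro ⟨h', hh'⟩
          refine ⟨h⁻¹ * h', ?_⟩
          have h4 : oh (h⁻¹ * h') = (oh h)⁻¹ * oh h' := by
            show o true (φ true (h⁻¹ * h')) = _
            rw [map_mul, map_mul, map_inv, map_inv]
          rw [h4]
          have h5 : q = (oh h)⁻¹ • (oh h • q) := (inv_smul_smul _ _).symm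
          rw [h5, hh']
          show (QuotientGroup.mk ((oh h)⁻¹ * (oh h' * W a)) : Γ ⧸ T i) =
            QuotientGroup.mk ((oh h)⁻¹ * oh h' * W a)
          rw [mul_assoc]
        · rintro ⟨h', rfl⟩
          refine ⟨h * h', ?_⟩
          have h4 : oh (h * h') = oh h * oh h' := by
            show o true (φ true (h * h')) = _
            rw [map_mul, map_mul]
          rw [h4]
          show (QuotientGroup.mk (oh h * (oh h' * W a)) : Γ ⧸ T i) =
            QuotientGroup.mk (oh h * oh h' * W a)
          rw [mul_assoc]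
      show (if _ then _ else _) = (if _ then _ else _)
      simp only [h3]
    have hom_eq : ∀ j, om (QuotientGroup.mk (W j)) =
        if ∃ h : H, (oh h)⁻¹ * W j * (W a)⁻¹ ∈ T i then 1 else 0 := by
      intro j
      have h3 : (∃ h : H, (QuotientGroup.mk (W j) : Γ ⧸ T i) = QuotientGroup.mk (oh h * W a)) ↔
          ∃ h : H, (oh h)⁻¹ * W j * (W a)⁻¹ ∈ T i := by
        constructor
        · rintro ⟨h, hh⟩
          refine ⟨h, ?_⟩
          rw [eq_comm, QuotientGroup.eq] at hh
          have h4 := hTi.conj_mem _ hh (W a)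
          convert h4 using 1
          group
        · rintro ⟨h, hh⟩
          refine ⟨h, ?_⟩
          rw [eq_comm, QuotientGroup.eq]
          have h4 := hTi.conj_mem _ hh (W a)⁻¹
          convert h4 using 1
          group
      show (if _ then _ else _) = (if _ then _ else _)
      simp only [h3]
    have hom_a : om (QuotientGroup.mk (W a)) = 1 := by
      rw [hom_eq, if_pos]
      refine ⟨1, ?_⟩
      show (o true (φ true 1))⁻¹ * W a * (W a)⁻¹ ∈ T i
      rw [map_one, map_one, inv_one, one_mul, mul_inv_cancel]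
      exact (T i).one_mem
    have hom_j : ∀ j, a < j → j < a + d → om (QuotientGroup.mk (W j)) = 0 := by
      intro j hj1 hj2
      rw [hom_eq, if_neg (hclaim j hj1 hj2)]
    let ρ : ∀ k, G k →* Wr (Γ ⧸ T i) := fun k => MonoidHom.mk' (fun g =>
      ⟨MulAction.toPerm (o k g), fun q => if k = true then om (o k g • q) - om q else 0⟩) (by
        intro g g'
        apply Wr.ext
        · apply Equiv.ext
          intro q
          show o k (g * g') • q = o k g • (o k g' • q)
          rw [map_mul, mul_smul]
        · funext q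
          rw [Wr.mul_t]
          show (if k = true then om (o k (g * g') • q) - om q else 0) =
            (if k = true then om (o k g • (o k g' • q)) - om (o k g' • q) else 0) +
            (if k = true then om (o k g' • q) - om q else 0)
          rw [map_mul, mul_smul]
          split_ifs
          · ring
          · ring)
    obtain ⟨Φ, hΦ⟩ := hΓ.lift (Wr (Γ ⧸ T i)) ρ (by
      intro k k' h
      apply Wr.ext
      · apply Equiv.ext
        intro q
        show o k (φ k h) • q = o k' (φ k' h) • q
        rw [hoh, hoh]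
      · funext q
        show (if k = true then om (o k (φ k h) • q) - om q else 0) =
          (if k' = true then om (o k' (φ k' h) • q) - om q else 0)
        rw [hoh, hoh, hom_inv, sub_self, ite_self, ite_self])
    have hΦs : ∀ (z : Γ) q, (Φ z).s q = z • q := by
      intro z q
      obtain ⟨L', rfl⟩ := hΓ.gen z
      induction L' with
      | nil =>
        rw [List.map_nil, List.prod_nil, map_one, one_smul]
        rfl
      | cons p L' ih =>
        rw [List.map_cons, List.prod_cons, map_mul, Wr.mul_s, Equiv.Perm.mul_apply, ih, hΦ,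
          mul_smul]
        rfl
    have hΦt : ∀ (z z' : Γ) q, (Φ (z * z')).t q = (Φ z).t (z' • q) + (Φ z').t q := by
      intro z z' q
      rw [map_mul, Wr.mul_t, hΦs]
    have hΦo : ∀ k (g : G k) q, (Φ (o k g)).t q = if k = true then om (o k g • q) - om q else 0 := by
      intro k g q
      rw [hΦ]
      rfl
    obtain ⟨hab, g, hg⟩ := hR'
    let q0 : Γ ⧸ T i := QuotientGroup.mk (W (a + d))
    have hθ : HomOn (T i) (fun z => (Φ z).t q0) := by
      intro z _ z' hz'
      show (Φ (z * z')).t q0 = (Φ z).t q0 + (Φ z').t q0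
      rw [hΦt]
      have h3 : z' • q0 = q0 := by
        show (QuotientGroup.mk (z' * W (a + d)) : Γ ⧸ T i) = QuotientGroup.mk (W (a + d))
        rw [eq_comm, QuotientGroup.eq]
        have h4 := hTi.conj_mem _ hz' (W (a + d))⁻¹
        convert h4 using 1
        group
      rw [h3]
    obtain ⟨m, hm2, hm⟩ := hdiv i _ hθ _ hg
    -- the value
    let D : ℕ → ℤ := fun j => (Φ (W j * (W (a + d))⁻¹)).t q0
    have hsm : ∀ j, (W j * (W (a + d))⁻¹) • q0 = QuotientGroup.mk (W j) := by
      intro j
      show (QuotientGroup.mk (W j * (W (a + d))⁻¹ * W (a + d)) : Γ ⧸ T i) = _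
      rw [inv_mul_cancel_right]
    have hDs : ∀ j, j < a + d → D j = (if ty b0 (j + 1) = true then
        om (QuotientGroup.mk (W j)) - om (QuotientGroup.mk (W (j + 1))) else 0) + D (j + 1) := by
      intro j hj
      have hjL : j < L.length := by omega
      show (Φ (W j * (W (a + d))⁻¹)).t q0 = _
      have h3 : W j * (W (a + d))⁻¹ = o (L[j]).1 (L[j]).2 * (W (j + 1) * (W (a + d))⁻¹) := by
        rw [hW j hjL]
        group
      have h4 : o (L[j]).1 (L[j]).2 • (QuotientGroup.mk (W (j + 1)) : Γ ⧸ T i) =
          QuotientGroup.mk (W j) := by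
        show (QuotientGroup.mk (o (L[j]).1 (L[j]).2 * W (j + 1)) : Γ ⧸ T i) = _
        rw [← hW j hjL]
      rw [h3, hΦt, hsm, hΦo, h4, hty j hjL]
    have hDb : D (a + d) = 0 := by
      show (Φ (W (a + d) * (W (a + d))⁻¹)).t q0 = 0
      rw [mul_inv_cancel, map_one, Wr.one_t]
    have hDj : ∀ e, 1 ≤ e → e < d → D (a + d - e) =
        if ty b0 (a + d) = true then - om (QuotientGroup.mk (W (a + d))) else 0 := by
      intro e
      induction e with
      | zero => intro h; omega
      | succ e ih =>
        intro _ he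
        have h3 : a + d - (e + 1) + 1 = a + d - e := by omega
        rw [hDs _ (by omega), h3, hom_j (a + d - (e + 1)) (by omega) (by omega)]
        rcases Nat.eq_zero_or_pos e with h4 | h4
        · subst h4
          rw [Nat.sub_zero, hDb]
          split_ifs
          · ring
          · rfl
        · rw [hom_j (a + d - e) (by omega) (by omega), ih (by omega) (by omega), sub_self, ite_self,
            zero_add]
    have hDa1 := hDj (d - 1) (by omega) (by omega)
    have h3 : a + d - (d - 1) = a + 1 := by omega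
    rw [h3] at hDa1
    have hDa := hDs a (by omega)
    rw [hom_a, hom_j (a + 1) (by omega) (by omega), hDa1] at hDa
    have hval : (Φ ((o _ g)⁻¹ * W a * (W (a + d))⁻¹)).t q0 =
        (if ty b0 a = true then om (QuotientGroup.mk (W (a + d))) - 1 else 0) + D a := by
      rw [mul_assoc, hΦt, hsm, ← map_inv, hΦo, hom_a]
      have h4 : o _ g⁻¹ • (QuotientGroup.mk (W a) : Γ ⧸ T i) = QuotientGroup.mk (W (a + d)) := by
        show (QuotientGroup.mk (o _ g⁻¹ * W a) : Γ ⧸ T i) = QuotientGroup.mk (W (a + d))
        rw [eq_comm, QuotientGroup.eq, map_inv]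
        have h5 := hTi.conj_mem _ (hT i hg) (W (a + d))⁻¹
        convert h5 using 1
        group
      rw [h4]
    have hm' : (m : ℤ) ∣ (Φ ((o _ g)⁻¹ * W a * (W (a + d))⁻¹)).t q0 := hm
    rw [hval, hDa, ty_succ, ← hab] at hm'
    have hunit : (m : ℤ) ∣ 1 := by
      rcases hta : ty b0 a with _ | _
      · rw [hta] at hm'
        simpa using hm'
      · rw [hta] at hm'
        have h6 : (m : ℤ) ∣ -1 := by
          convert hm' using 1
          simp only [if_true, Bool.not_true, Bool.false_eq_true, if_false]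
          ring
        exact (dvd_neg).mp h6
    have h7 := Int.eq_one_of_dvd_one (by positivity) hunit
    omega

end Pool.Agent.K4H11.RFRS
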