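import Pool.Agent.K4H11.RFRS.Bundle
import Pool.Agent.K4H11.RFRS.Walk
import Pool.Agent.K4H11.RFRS.Data
import Pool.Agent.R632.VRC.Two2

/-! Amalgams of virtually RFRS groups over infinite cyclic groups. -/

set_option linter.unusedSectionVars false
set_option linter.dupNamespace false

namespace Pool.Agent.K4H11.RFRS

open Pool.Agent.R632.VRC

universe u

/-- a dependent function on the two indices -/
def bs {T : Bool → Sort*} (x : T true) (y : T false) : ∀ k, T k
  | true => x
  | false => y

/-- the homomorphism to a cyclic group given by a homomorphism to the integers -/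
def zhom {P : Type u} [Group P] {A : Subgroup P} {f : P → ℤ} (hf : HomOn A f) {B : Type u} [Group B]
    (d : B) : A →* B :=
  MonoidHom.mk' (fun x => d ^ f x) (fun x y => by
    show d ^ f (x * y) = _
    rw [hf x x.2 y y.2, zpow_add])

lemma zhom_apply {P : Type u} [Group P] {A : Subgroup P} {f : P → ℤ} (hf : HomOn A f) {B : Type u}
    [Group B] (d : B) (x : A) : zhom hf d x = d ^ f x := rfl

section final

variable {G : Bool → Type u} [∀ i, Group (G i)] {H : Type u}
  [Group H] {φ : ∀ i, H →* G i} {Γ : Type u} [Group Γ] {o : ∀ i, G i →* Γ}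

/-- The conclusion from the homomorphisms to the wreath products. -/
theorem of_wreath (hΓ : Amalg φ o) (A : ∀ i, Subgroup (G i)) (hA : ∀ i, (A i).Normal)
    (hT : ∀ i, TT (A i)) (H0 : Subgroup H) (hH0 : ∀ i h, φ i h ∈ A i ↔ h ∈ H0) (c0 : H)
    (hc0 : ∀ h, h ∈ H0 ↔ ∃ n : ℤ, h = c0 ^ n) (ψ : ∀ i, G i → ℤ) (hψ : ∀ i, HomOn (A i) (ψ i))
    (hψc : ∀ i, ψ i (φ i c0) = 1)
    (hw : ∀ k, ∃ (X : Type u) (_ : Finite X) (Ψ : Γ →* WrG (A k) X) (z : X),
      (∀ g, (Ψ (o k g)).s z = z → g ∈ A k) ∧ ∃ b : A k, ∀ g (hg : g ∈ A k),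
        (Ψ (o k g)).t z = b * ⟨g, hg⟩ * b⁻¹) :
    ∃ K : Subgroup Γ, K.FiniteIndex ∧ TT K := by
  choose X hX Ψ z hz1 b hb using hw
  let K : Subgroup Γ := ⨅ k, ((WrG.perm (C := A k) (Ω := X k)).comp (Ψ k)).ker
  have hKf : K.FiniteIndex := by
    have h1 : ∀ k, (((WrG.perm (C := A k) (Ω := X k)).comp (Ψ k)).ker).FiniteIndex := by
      intro k
      have := hX k
      have : Finite (Equiv.Perm (X k)) := inferInstance
      infer_instance
    exact Subgroup.finiteIndex_iInf h1
  have hKn : K.Normal := Subgroup.normal_iInf_normal fun k => inferInstance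
  have hKs : ∀ x ∈ K, ∀ k, (Ψ k x).s = 1 := by
    intro x hx k
    have h1 := (Subgroup.mem_iInf.mp hx) k
    exact h1
  -- the homomorphisms to the subgroups
  let θ : ∀ k, Γ → G k := fun k x => ((Ψ k x).t (z k) : A k)
  have hθ : ∀ k, MulOn K (θ k) := by
    intro k x _ y hy
    show (((Ψ k (x * y)).t (z k) : A k) : G k) = ((Ψ k x).t (z k) : A k) * ((Ψ k y).t (z k) : A k)
    rw [map_mul, WrG.mul_t, hKs y hy k]
    rfl
  have hmem : ∀ k (g : G k), o k g ∈ K → g ∈ A k := by
    intro k g hg
    apply hz1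
    rw [hKs _ hg k]
    rfl
  have hE : ∀ i k (g : G k), o k g ∈ tw K i → g ∈ tw (A k) i := by
    intro i k g hg
    have hgA := hmem k g (tw_le K i hg)
    have h1 := tw_map (L := A k) (hθ k) (fun x _ => ((Ψ k x).t (z k)).2) i _ hg
    have h2 : θ k (o k g) = b k * g * (b k : G k)⁻¹ := by
      show (((Ψ k (o k g)).t (z k) : A k) : G k) = _
      rw [hb k g hgA]
      rfl
    rw [h2] at h1
    have hn : (tw (A k) i).Normal := by
      have := hA k
      exact tw_normal _ i
    have h3 := hn.conj_mem _ h1 (b k : G k)⁻¹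
    convert h3 using 1
    group
  refine ⟨K, hKf, ?_⟩
  have hwalk := walk hΓ (fun i => tw K i) (fun i => tw_normal K i) (fun i => tw_succ_le K i)
    (fun i f hf x hx => ⟨ex i, two_le_ex i, dvd_of_mem hx hf⟩)
    (fun k g hg => by
      have h1 : g = 1 := hT k g fun i => hE i k g (hg i)
      rw [h1, map_one])
    (fun k g hg => by
      obtain ⟨h0, hh0⟩ := hg 0
      let u0 : G k := (φ k h0)⁻¹ * g
      have hu0 : u0 ∈ A k := by
        apply hmem
        show o k ((φ k h0)⁻¹ * g) ∈ K
        rw [map_mul, map_inv]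
        exact hh0
      have hc0A : φ k c0 ∈ A k := (hH0 k c0).mpr ((hc0 c0).mpr ⟨1, (zpow_one c0).symm⟩)
      have key : ∀ i, (φ k c0 ^ ψ k u0)⁻¹ * u0 ∈ tw (A k) i := by
        intro i
        obtain ⟨h, hh⟩ := hg i
        have h1 : (φ k h)⁻¹ * g ∈ tw (A k) i := by
          apply hE
          rw [map_mul, map_inv]
          exact hh
        have h2 : φ k (h⁻¹ * h0) ∈ A k := by
          have h3 := (A k).mul_mem (tw_le _ i h1) ((A k).inv_mem hu0)
          convert h3 using 1
          show _ = (φ k h)⁻¹ * g * ((φ k h0)⁻¹ * g)⁻¹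
          rw [map_mul, map_inv]
          group
        obtain ⟨q, hq⟩ := (hc0 _).mp ((hH0 k _).mp h2)
        have h4 : (φ k h)⁻¹ * g = φ k c0 ^ q * u0 := by
          rw [← map_zpow, ← hq, map_mul, map_inv]
          show _ = (φ k h)⁻¹ * φ k h0 * ((φ k h0)⁻¹ * g)
          group
        rw [h4] at h1
        have hρ : MulOn (A k) (fun x : G k => φ k c0 ^ ψ k x) := by
          intro x hx y hy
          show φ k c0 ^ ψ k (x * y) = φ k c0 ^ ψ k x * φ k c0 ^ ψ k y
          rw [hψ k x hx y hy, zpow_add]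
        have h5 := tw_map (L := A k) hρ (fun x _ => (A k).zpow_mem hc0A _) i _ h1
        have h6 : ψ k (φ k c0 ^ q * u0) = q + ψ k u0 := by
          rw [hψ k _ ((A k).zpow_mem hc0A _) _ hu0, (hψ k).zpow hc0A, hψc, mul_one]
        have h7 := (tw (A k) i).mul_mem ((tw (A k) i).inv_mem h5) h1
        convert h7 using 1
        show _ = (φ k c0 ^ ψ k (φ k c0 ^ q * u0))⁻¹ * (φ k c0 ^ q * u0)
        rw [h6, zpow_add]
        group
      have h8 := hT k _ key
      rw [inv_mul_eq_one] at h8
      refine ⟨h0 * c0 ^ ψ k u0, ?_⟩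
      rw [map_mul, map_zpow, h8]
      show φ k h0 * ((φ k h0)⁻¹ * g) = g
      group)
  exact hwalk

end final

section bundles

variable {G : Bool → Type u} [∀ i, Group (G i)] {H : Type u}
  [Group H] {φ : ∀ i, H →* G i} {Γ : Type u} [Group Γ] {o : ∀ i, G i →* Γ}

/-- The homomorphisms to the wreath products. -/
theorem exists_wreath (hΓ : Amalg φ o) (A : ∀ i, Subgroup (G i)) (hA : ∀ i, (A i).Normal)
    (hAf : ∀ i, (A i).FiniteIndex)
    (H0 : Subgroup H) (hH0f : H0.FiniteIndex) (hH0 : ∀ i h, φ i h ∈ A i ↔ h ∈ H0)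
    (hcomm : ∀ x y : H, x * y = y * x) (c0 : H)
    (hc0 : ∀ h, h ∈ H0 ↔ ∃ n : ℤ, h = c0 ^ n) (ψ : ∀ i, G i → ℤ) (hψ : ∀ i, HomOn (A i) (ψ i))
    (hψc : ψ false (φ false c0) = 1) (hψt : ∀ p, ψ true (p⁻¹ * φ true c0 * p) = 1) :
    ∀ k, ∃ (X : Type u) (_ : Finite X) (Ψ : Γ →* WrG (A k) X) (z : X),
      (∀ g, (Ψ (o k g)).s z = z → g ∈ A k) ∧ ∃ b : A k, ∀ g (hg : g ∈ A k),
        (Ψ (o k g)).t z = b * ⟨g, hg⟩ * b⁻¹ := by
  classical
  have hc0A : ∀ i, φ i c0 ∈ A i := fun i => (hH0 i c0).mpr ((hc0 c0).mpr ⟨1, (zpow_one c0).symm⟩)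
  have hconj : ∀ i p, p⁻¹ * φ i c0 * p ∈ A i := by
    intro i p
    have := (hA i).conj_mem _ (hc0A i) p⁻¹
    rwa [inv_inv] at this
  have hfinDC : ∀ i, Finite (DC (φ i) (A i)) := fun i => finite_DC _ _ (hAf i)
  have hfinH : Finite (H ⧸ H0) := Subgroup.finite_quotient_of_finiteIndex
  choose rep hrep using fun i => cls_surj (φ i) (A i)
  -- the conjugates
  let cc : ∀ i, DC (φ i) (A i) → A i := fun i s => ⟨_, hconj i (rep i s)⟩
  rintro (_ | _)
  · -- the second factor
    obtain ⟨Ψ, hΨ⟩ := glueNA hΓ A hA H0 hH0 (J := DC (φ true) (A true) × DC (φ false) (A false))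
      (R := bs (DC (φ false) (A false)) (DC (φ true) (A true)))
      (bs (T := fun i => DC (φ true) (A true) × DC (φ false) (A false) → G i)
        (fun π => rep true π.1) (fun π => rep false π.2))
      (bs (T := fun i => DC (φ true) (A true) × DC (φ false) (A false) → DC (φ i) (A i) ×
          (bs (DC (φ false) (A false)) (DC (φ true) (A true)) : Bool → Type u) i)
        (fun π => (π.1, π.2)) (fun π => (π.2, π.1)))
      (by
        rintro (_ | _)
        · constructor
          · rintro ⟨a, b⟩ ⟨a', b'⟩ h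
            have h1 : b = b' := congrArg Prod.fst h
            have h2 : a = a' := congrArg Prod.snd h
            rw [h1, h2]
          · rintro ⟨a, b⟩
            exact ⟨(b, a), rfl⟩
        · constructor
          · rintro ⟨a, b⟩ ⟨a', b'⟩ h
            have h1 : a = a' := congrArg Prod.fst h
            have h2 : b = b' := congrArg Prod.snd h
            rw [h1, h2]
          · rintro ⟨a, b⟩
            exact ⟨(a, b), rfl⟩)
      (by
        rintro (_ | _) π
        · exact hrep false π.2
        · exact hrep true π.1)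
      (bs (T := fun i => (bs (DC (φ false) (A false)) (DC (φ true) (A true)) : Bool → Type u) i →
          (A i →* A false))
        (fun j => zhom (hψ true) (cc false j)) (fun _ => MonoidHom.id _))
      hcomm c0 hc0 (fun π => cc false π.2)
      (by
        rintro (_ | _) π hm
        · exact ⟨1, by rw [one_mul, inv_one, mul_one]; rfl⟩
        · refine ⟨1, ?_⟩
          rw [one_mul, inv_one, mul_one]
          show (cc false π.2) ^ ψ true ((rep true π.1)⁻¹ * φ true c0 * rep true π.1) = cc false π.2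
          rw [hψt, zpow_one])
    obtain ⟨z, hz1, b, hb⟩ := hΨ false (cls (φ true) (A true) 1)
    exact ⟨_, inferInstance, Ψ, z, hz1, b, hb⟩
  · -- the first factor
    let S := DC (φ true) (A true)
    let R := DC (φ false) (A false)
    let j1 : R := cls (φ false) (A false) 1
    have hj1 : ψ false (cc false j1 : G false) = 1 := by
      show ψ false ((rep false j1)⁻¹ * φ false c0 * rep false j1) = 1
      have h1 : cls (φ false) (A false) (rep false j1) = cls (φ false) (A false) 1 := hrep false j1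
      rw [cls_eq] at h1
      obtain ⟨h, a, ha, hp⟩ := h1
      have h2 : (rep false j1)⁻¹ * φ false c0 * rep false j1 = a⁻¹ * φ false c0 * a := by
        rw [hp]
        have h5 : φ false c0 = (φ false h)⁻¹ * φ false c0 * φ false h := by
          rw [← map_inv, ← map_mul, ← map_mul, mul_assoc, hcomm c0]
          group
        conv_rhs => rw [h5]
        group
      have h3 := (hψ false).conj ((A false).inv_mem ha) (hc0A false)
      rw [inv_inv] at h3
      rw [h2, h3, hψc]
    let lamt : S × S × R → S × (S × R) := fun π =>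
      if π.2.2 = j1 then (π.1, (π.2.1, j1)) else (π.2.1, (π.1, π.2.2))
    let alt : S × R → (A true →* A true) := fun r => if r.2 = j1 then MonoidHom.id _ else
      zhom (hψ true) ((cc true r.1) ^ ψ false (cc false r.2 : G false))
    have key : ∀ π (hm : (rep true (lamt π).1)⁻¹ * φ true c0 * rep true (lamt π).1 ∈ A true),
        alt (lamt π).2 ⟨_, hm⟩ = (cc true π.1) ^ ψ false (cc false π.2.2 : G false) := by
      rintro ⟨a, b, c⟩ hm
      by_cases hc : c = j1
      · have h1 : lamt (a, b, c) = (a, (b, j1)) := if_pos hc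
        have h2 : alt (lamt (a, b, c)).2 = MonoidHom.id _ := by
          rw [h1]
          exact if_pos rfl
        rw [h2]
        show (⟨(rep true (lamt (a, b, c)).1)⁻¹ * φ true c0 * rep true (lamt (a, b, c)).1, hm⟩ :
          A true) = (cc true a) ^ ψ false (cc false c : G false)
        have h3 : (cc true a) ^ ψ false (cc false c : G false) = cc true a := by
          rw [hc, hj1, zpow_one]
        rw [h3]
        apply Subtype.ext
        show (rep true (lamt (a, b, c)).1)⁻¹ * φ true c0 * rep true (lamt (a, b, c)).1 =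
          (rep true a)⁻¹ * φ true c0 * rep true a
        rw [h1]
      · have h1 : lamt (a, b, c) = (b, (a, c)) := if_neg hc
        have h2 : alt (lamt (a, b, c)).2 =
            zhom (hψ true) ((cc true a) ^ ψ false (cc false c : G false)) := by
          rw [h1]
          exact if_neg hc
        rw [h2]
        show ((cc true a) ^ ψ false (cc false c : G false)) ^
          ψ true ((rep true (lamt (a, b, c)).1)⁻¹ * φ true c0 * rep true (lamt (a, b, c)).1) = _
        rw [hψt, zpow_one]
    obtain ⟨Ψ, hΨ⟩ := glueNA hΓ A hA H0 hH0 (J := S × S × R)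
      (R := bs (S × R) (S × S))
      (bs (T := fun i => S × S × R → G i)
        (fun π => rep true (lamt π).1) (fun π => rep false π.2.2))
      (bs (T := fun i => S × S × R → DC (φ i) (A i) × (bs (S × R) (S × S) : Bool → Type u) i)
        lamt (fun π => (π.2.2, (π.1, π.2.1))))
      (by
        rintro (_ | _)
        · constructor
          · rintro ⟨a, b, c⟩ ⟨a', b', c'⟩ h
            have h1 : c = c' := congrArg Prod.fst h
            have h2 : (a, b) = (a', b') := congrArg Prod.snd h
            have h3 : a = a' := congrArg Prod.fst h2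
            have h4 : b = b' := congrArg Prod.snd h2
            rw [h1, h3, h4]
          · rintro ⟨c, a, b⟩
            exact ⟨(a, b, c), rfl⟩
        · constructor
          · rintro ⟨a, b, c⟩ ⟨a', b', c'⟩ h
            have h0 : (if c = j1 then ((a, (b, j1)) : S × (S × R)) else (b, (a, c))) =
              (if c' = j1 then (a', (b', j1)) else (b', (a', c'))) := h
            by_cases hc : c = j1
            · by_cases hc' : c' = j1
              · rw [if_pos hc, if_pos hc'] at h0
                have h1 : a = a' := congrArg Prod.fst h0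
                have h2 : b = b' := congrArg (fun x => x.2.1) h0
                rw [h1, h2, hc, hc']
              · rw [if_pos hc, if_neg hc'] at h0
                have h1 : j1 = c' := congrArg (fun x => x.2.2) h0
                exact absurd h1.symm hc'
            · by_cases hc' : c' = j1
              · rw [if_neg hc, if_pos hc'] at h0
                have h1 : c = j1 := congrArg (fun x => x.2.2) h0
                exact absurd h1 hc
              · rw [if_neg hc, if_neg hc'] at h0
                have h1 : b = b' := congrArg Prod.fst h0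
                have h2 : a = a' := congrArg (fun x => x.2.1) h0
                have h3 : c = c' := congrArg (fun x => x.2.2) h0
                rw [h1, h2, h3]
          · rintro ⟨s, u, j⟩
            by_cases hj : j = j1
            · refine ⟨(s, u, j), ?_⟩
              show (if j = j1 then ((s, (u, j1)) : S × (S × R)) else (u, (s, j))) = (s, u, j)
              rw [if_pos hj, hj]
            · refine ⟨(u, s, j), ?_⟩
              show (if j = j1 then ((u, (s, j1)) : S × (S × R)) else (s, (u, j))) = (s, u, j)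
              rw [if_neg hj])
      (by
        rintro (_ | _) ⟨a, b, c⟩
        · exact hrep false c
        · exact hrep true _)
      (bs (T := fun i => (bs (S × R) (S × S) : Bool → Type u) i → (A i →* A true))
        alt (fun r => zhom (hψ false) (cc true r.1)))
      hcomm c0 hc0 (fun π => (cc true π.1) ^ ψ false (cc false π.2.2 : G false))
      (by
        rintro (_ | _) π hm
        · exact ⟨1, by rw [one_mul, inv_one, mul_one]; rfl⟩
        · exact ⟨1, by rw [one_mul, inv_one, mul_one]; exact key π hm⟩)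
    obtain ⟨z, hz1, b, hb⟩ := hΨ true ((cls (φ true) (A true) 1, j1) : S × R)
    have hal : alt ((cls (φ true) (A true) 1, j1) : S × R) = MonoidHom.id _ := if_pos rfl
    refine ⟨_, inferInstance, Ψ, z, hz1, b, fun g hg => ?_⟩
    rw [hb g hg]
    show b * alt ((cls (φ true) (A true) 1, j1) : S × R) ⟨g, hg⟩ * b⁻¹ = _
    rw [hal]
    rfl

end bundles

/-- The abstract form of the theorem. -/
theorem main {P Q H : Type u} [Group P] [Group Q] [Group H] (hP : Group.FG P) (hQ : Group.FG Q)
    (a : H →* P) (b : H →* Q) (ha : Function.Injective a) (hb : Function.Injective b) {Γ : Type u}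
    [Group Γ] {i : P →* Γ} {j : Q →* Γ} (hΓ : Amalg (famHom a b) (famOut i j)) (c : H)
    (hc : ∀ h, ∃ n : ℤ, h = c ^ n) (hinf : ∀ n : ℤ, c ^ n = 1 → n = 0)
    {K : Subgroup P} (hK : K.FiniteIndex) (hKr : IsRFRS K)
    {L : Subgroup Q} (hL : L.FiniteIndex) (hLr : IsRFRS L)
    {e : P → ℤ} (he : HomOn ⊤ e) (hec : e (a c) ≠ 0) :
    ∃ M : Subgroup Γ, M.FiniteIndex ∧ TT M := by
  have hac : ∀ n : ℤ, (a c) ^ n = 1 → n = 0 := by
    intro n hn
    apply hinf
    apply ha
    rw [map_zpow, hn, map_one]
  have hbc : ∀ n : ℤ, (b c) ^ n = 1 → n = 0 := by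
    intro n hn
    apply hinf
    apply hb
    rw [map_zpow, hn, map_one]
  obtain ⟨k, hk0, hk⟩ := exists_data_ab hP hK hKr hac he hec
  obtain ⟨l, hl0, hl⟩ := exists_data_gen hQ hL hLr hbc
  obtain ⟨A, hAn, hAf, hAT, hAc, ψ, hψ, hψc⟩ := hk l hl0
  obtain ⟨B, hBn, hBf, hBT, hBc, χ, hχ, hχc⟩ := hl k hk0
  rw [mul_comm l k] at hχc
  have hcomm : ∀ x y : H, x * y = y * x := by
    intro x y
    obtain ⟨n, rfl⟩ := hc x
    obtain ⟨m, rfl⟩ := hc y
    rw [← zpow_add, ← zpow_add, add_comm]
  have hH0f : (Subgroup.zpowers (c ^ (k * l))).FiniteIndex := by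
    have h1 : (A.comap a).FiniteIndex := by
      constructor
      rw [Subgroup.index_comap]
      intro h0
      have h4 := Subgroup.relIndex_dvd_index_of_normal A a.range
      rw [h0] at h4
      exact hAf.index_ne_zero (Nat.eq_zero_of_zero_dvd h4)
    refine Subgroup.finiteIndex_of_le (H := A.comap a) fun h hh => ?_
    obtain ⟨n, rfl⟩ := hc h
    have h2 : a c ^ n ∈ A := by
      rw [← map_zpow]
      exact hh
    obtain ⟨q, rfl⟩ := (hAc n).mp h2
    exact ⟨q, by
      show (c ^ (k * l)) ^ q = _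
      rw [← zpow_natCast, ← zpow_mul]⟩
  have hgen : ∀ (n : ℤ), ((k * l : ℕ) : ℤ) ∣ n ↔ c ^ n ∈ Subgroup.zpowers (c ^ (k * l)) := by
    intro n
    constructor
    · rintro ⟨q, rfl⟩
      exact ⟨q, by
        show (c ^ (k * l)) ^ q = _
        rw [← zpow_natCast, ← zpow_mul]⟩
    · rintro ⟨q, hq⟩
      have hq' : (c ^ (k * l)) ^ q = c ^ n := hq
      rw [← zpow_natCast, ← zpow_mul] at hq'
      have h1 : c ^ (n - ((k * l : ℕ) : ℤ) * q) = 1 := by
        rw [zpow_sub, hq', mul_inv_cancel]
      exact ⟨q, by linarith [hinf _ h1]⟩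
  have hH0 : ∀ (i : Bool) (h : H), famHom a b i h ∈ (bs (T := fun i => Subgroup (Fam P Q i)) A B) i ↔
      h ∈ Subgroup.zpowers (c ^ (k * l)) := by
    rintro (_ | _) h
    · obtain ⟨n, rfl⟩ := hc h
      rw [← hgen, mul_comm k l, ← hBc]
      show b (c ^ n) ∈ B ↔ _
      rw [map_zpow]
    · obtain ⟨n, rfl⟩ := hc h
      rw [← hgen, ← hAc]
      show a (c ^ n) ∈ A ↔ _
      rw [map_zpow]
  have hc0 : ∀ h, h ∈ Subgroup.zpowers (c ^ (k * l)) ↔ ∃ n : ℤ, h = (c ^ (k * l)) ^ n := by
    intro h
    constructor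
    · rintro ⟨n, hn⟩
      exact ⟨n, hn.symm⟩
    · rintro ⟨n, hn⟩
      exact ⟨n, hn.symm⟩
  have hfχ : χ (b (c ^ (k * l))) = 1 := by
    rw [map_pow]
    exact hχc
  have hfψ : ∀ p : P, ψ (p⁻¹ * a (c ^ (k * l)) * p) = 1 := by
    intro p
    rw [map_pow]
    exact hψc p
  refine of_wreath hΓ (bs (T := fun i => Subgroup (Fam P Q i)) A B) ?_ ?_
    (Subgroup.zpowers (c ^ (k * l))) hH0 (c ^ (k * l)) hc0
    (bs (T := fun i => Fam P Q i → ℤ) ψ χ) ?_ ?_
    (exists_wreath hΓ (bs (T := fun i => Subgroup (Fam P Q i)) A B) ?_ ?_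
      (Subgroup.zpowers (c ^ (k * l))) hH0f hH0 hcomm (c ^ (k * l)) hc0
      (bs (T := fun i => Fam P Q i → ℤ) ψ χ) ?_ ?_ ?_)
  · rintro (_ | _)
    · exact hBn
    · exact hAn
  · rintro (_ | _)
    · exact hBT
    · exact hAT
  · rintro (_ | _)
    · exact hχ
    · exact hψ
  · rintro (_ | _)
    · exact hfχ
    · have h1 := hfψ 1
      rw [inv_one, one_mul, mul_one] at h1
      exact h1
  · rintro (_ | _)
    · exact hBn
    · exact hAn
  · rintro (_ | _)
    · exact hBf
    · exact hAf
  · rintro (_ | _)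
    · exact hχ
    · exact hψ
  · exact hfχ
  · exact hfψ

end Pool.Agent.K4H11.RFRS
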