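import Pool.Agent.R632.VRC.Sep

/-! The canonical tower of a group: residually finite rationally solvable groups. -/

set_option linter.unusedSectionVars false
set_option linter.dupNamespace false

namespace Pool.Agent.K4H11.RFRS

open Pool.Agent.R632.VRC

universe u v

variable {P : Type u} [Group P] {Q : Type v} [Group Q]

/-- the elements of `U` on which the homomorphisms to the integers are divisible by `m` -/
def step (m : ℕ) (U : Subgroup P) : Subgroup P where
  carrier := {x | x ∈ U ∧ ∀ f : P → ℤ, HomOn U f → (m : ℤ) ∣ f x}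
  mul_mem' := fun {a b} ha hb => ⟨U.mul_mem ha.1 hb.1, fun f hf => by
    rw [hf a ha.1 b hb.1]
    exact dvd_add (ha.2 f hf) (hb.2 f hf)⟩
  one_mem' := ⟨U.one_mem, fun f hf => by rw [hf.one]; exact dvd_zero _⟩
  inv_mem' := fun {a} ha => ⟨U.inv_mem ha.1, fun f hf => by
    rw [hf.inv ha.1]
    exact dvd_neg.mpr (ha.2 f hf)⟩

lemma step_le (m : ℕ) (U : Subgroup P) : step m U ≤ U := fun _ hx => hx.1

/-- the exponents -/
def ex (i : ℕ) : ℕ := (i + 2).factorial

lemma ex_ne_zero (i : ℕ) : ex i ≠ 0 := Nat.factorial_ne_zero _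

lemma two_le_ex (i : ℕ) : 2 ≤ ex i := by
  have h : (2).factorial ≤ (i + 2).factorial := Nat.factorial_le (by omega)
  exact h

lemma dvd_ex {e i : ℕ} (he : 0 < e) (hi : e ≤ i) : e ∣ ex i :=
  Nat.dvd_factorial he (by omega)

/-- the canonical tower -/
def tw (K : Subgroup P) : ℕ → Subgroup P
  | 0 => K
  | i + 1 => step (ex i) (tw K i)

lemma tw_zero (K : Subgroup P) : tw K 0 = K := rfl

lemma tw_succ (K : Subgroup P) (i : ℕ) : tw K (i + 1) = step (ex i) (tw K i) := rfl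

lemma tw_succ_le (K : Subgroup P) (i : ℕ) : tw K (i + 1) ≤ tw K i := step_le _ _

lemma tw_anti (K : Subgroup P) {i j : ℕ} (h : i ≤ j) : tw K j ≤ tw K i :=
  antitone_nat_of_succ_le (tw_succ_le K) h

lemma tw_le (K : Subgroup P) (i : ℕ) : tw K i ≤ K := tw_anti K (Nat.zero_le i)

lemma dvd_of_mem {K : Subgroup P} {i : ℕ} {x : P} (hx : x ∈ tw K (i + 1)) {f : P → ℤ}
    (hf : HomOn (tw K i) f) : ((ex i : ℕ) : ℤ) ∣ f x := hx.2 f hf

/-- `θ` is multiplicative on `K` -/
def MulOn (K : Subgroup P) (θ : P → Q) : Prop := ∀ a ∈ K, ∀ b ∈ K, θ (a * b) = θ a * θ b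

lemma tw_map {K : Subgroup P} {L : Subgroup Q} {θ : P → Q} (hθ : MulOn K θ)
    (hL : ∀ x ∈ K, θ x ∈ L) (i : ℕ) : ∀ x ∈ tw K i, θ x ∈ tw L i := by
  induction i with
  | zero => exact hL
  | succ i ih =>
    intro x hx
    refine ⟨ih x hx.1, fun f hf => ?_⟩
    refine hx.2 (fun y => f (θ y)) ?_
    intro a ha b hb
    show f (θ (a * b)) = f (θ a) + f (θ b)
    rw [hθ a (tw_le K i ha) b (tw_le K i hb), hf _ (ih a ha) _ (ih b hb)]

lemma tw_mono {K L : Subgroup P} (h : K ≤ L) (i : ℕ) : tw K i ≤ tw L i := fun x hx =>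
  tw_map (θ := fun y : P => y) (fun _ _ _ _ => rfl) (fun _ hy => h hy) i x hx

lemma tw_normal (K : Subgroup P) [hK : K.Normal] (i : ℕ) : (tw K i).Normal := by
  constructor
  intro x hx g
  exact tw_map (θ := fun y : P => g * y * g⁻¹) (fun a _ b _ => by
    show g * (a * b) * g⁻¹ = (g * a * g⁻¹) * (g * b * g⁻¹)
    group) (fun y hy => hK.conj_mem y hy g) i x hx

/-- the tower has trivial intersection -/
def TT (K : Subgroup P) : Prop := ∀ x, (∀ i, x ∈ tw K i) → x = 1

lemma TT.mono {K L : Subgroup P} (hL : TT L) (h : K ≤ L) : TT K := fun x hx =>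
  hL x fun i => tw_mono h i (hx i)

/-! ### finite index -/

lemma step_finiteIndex {m : ℕ} (hm : m ≠ 0) {U : Subgroup P} (hU : U.FiniteIndex)
    (hfg : Group.FG U) : (step m U).FiniteIndex := by
  let N : Subgroup U := (step m U).subgroupOf U
  have hmem : ∀ x : U, x ∈ N ↔ ∀ f : P → ℤ, HomOn U f → (m : ℤ) ∣ f x := fun x =>
    ⟨fun h => (Subgroup.mem_subgroupOf.mp h).2, fun h => Subgroup.mem_subgroupOf.mpr ⟨x.2, h⟩⟩
  have hN : N.Normal := by
    constructor
    intro x hx g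
    rw [hmem] at hx ⊢
    intro f hf
    have h1 : f ((g * x * g⁻¹ : U) : P) = f x := hf.conj g.2 x.2
    rw [h1]
    exact hx f hf
  let _ : CommGroup (U ⧸ N) :=
    { (inferInstance : Group (U ⧸ N)) with
      mul_comm := by
        intro a b
        obtain ⟨x, rfl⟩ := QuotientGroup.mk_surjective a
        obtain ⟨y, rfl⟩ := QuotientGroup.mk_surjective b
        show (QuotientGroup.mk (x * y) : U ⧸ N) = QuotientGroup.mk (y * x)
        rw [QuotientGroup.eq, hmem]
        intro f hf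
        have h1 : f (((x * y)⁻¹ * (y * x) : U) : P) = 0 := by
          show f (((x : P) * y)⁻¹ * (y * x)) = 0
          rw [hf _ (U.inv_mem (U.mul_mem x.2 y.2)) _ (U.mul_mem y.2 x.2),
            hf.inv (U.mul_mem x.2 y.2), hf _ x.2 _ y.2, hf _ y.2 _ x.2]
          ring
        rw [h1]
        exact dvd_zero _ }
  have hfgq : Group.FG (U ⧸ N) := inferInstance
  have htor : IsMulTorsion (U ⧸ N) := by
    intro a
    obtain ⟨x, rfl⟩ := QuotientGroup.mk_surjective a
    rw [isOfFinOrder_iff_pow_eq_one]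
    refine ⟨m, Nat.pos_of_ne_zero hm, ?_⟩
    show (QuotientGroup.mk (x ^ m) : U ⧸ N) = 1
    rw [QuotientGroup.eq_one_iff, hmem]
    intro f hf
    have h1 : f ((x ^ m : U) : P) = m * f x := by
      have := hf.zpow x.2 m
      rw [zpow_natCast] at this
      exact this
    rw [h1]
    exact dvd_mul_right _ _
  have hfin : Finite (U ⧸ N) := CommGroup.finite_of_fg_isMulTorsion (U ⧸ N) htor
  have h1 : N.FiniteIndex := Subgroup.finiteIndex_of_finite_quotient
  constructor
  rw [← Subgroup.relIndex_mul_index (step_le m U)]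
  exact mul_ne_zero h1.index_ne_zero hU.index_ne_zero

lemma tw_finiteIndex [hP : Group.FG P] {K : Subgroup P} (hK : K.FiniteIndex) (i : ℕ) :
    (tw K i).FiniteIndex := by
  induction i with
  | zero => exact hK
  | succ i ih => exact step_finiteIndex (ex_ne_zero i) ih (Subgroup.fg_of_index_ne_zero _)

/-! ### residually finite rationally solvable groups -/

/-- the definition -/
def IsRFRS (G : Type u) [Group G] : Prop :=
  Group.FG G ∧ ∃ U : ℕ → Subgroup G, U 0 = ⊤ ∧ (∀ i, (U i).Normal) ∧ (∀ i, (U i).FiniteIndex) ∧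
    (∀ i, U (i + 1) ≤ U i) ∧
    (∀ i, ∀ x ∈ U i, ∀ n : ℕ, 0 < n → x ^ n ∈ ⁅U i, U i⁆ → x ∈ U (i + 1)) ∧ ⨅ i, U i = ⊥

lemma comm_zero {U : Subgroup P} {f : P → ℤ} (hf : HomOn U f) {x : P} (hx : x ∈ ⁅U, U⁆) :
    f x = 0 := by
  let Z : Subgroup P :=
    { carrier := {x | x ∈ U ∧ f x = 0}
      mul_mem' := fun {a b} ha hb => ⟨U.mul_mem ha.1 hb.1, by
        rw [hf a ha.1 b hb.1, ha.2, hb.2, add_zero]⟩
      one_mem' := ⟨U.one_mem, hf.one⟩
      inv_mem' := fun {a} ha => ⟨U.inv_mem ha.1, by rw [hf.inv ha.1, ha.2, neg_zero]⟩ }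
  have h1 : ⁅U, U⁆ ≤ Z := by
    rw [Subgroup.commutator_le]
    intro a ha b hb
    refine ⟨?_, ?_⟩
    · rw [commutatorElement_def]
      exact U.mul_mem (U.mul_mem (U.mul_mem ha hb) (U.inv_mem ha)) (U.inv_mem hb)
    · rw [commutatorElement_def, hf _ (U.mul_mem (U.mul_mem ha hb) (U.inv_mem ha)) _ (U.inv_mem hb),
        hf.conj ha hb, hf.inv hb]
      ring
  exact (h1 hx).2

lemma isRFRS_of_TT [Group.FG P] {K : Subgroup P} (hKf : K.FiniteIndex) (hK : TT K) :
    IsRFRS K := by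
  have hfg : Group.FG K := Subgroup.fg_of_index_ne_zero K
  refine ⟨hfg, tw (⊤ : Subgroup K), rfl, fun i => tw_normal _ i,
    fun i => tw_finiteIndex inferInstance i, tw_succ_le _, ?_, ?_⟩
  · intro i x hx n hn hxn
    refine ⟨hx, fun f hf => ?_⟩
    have h1 := comm_zero hf hxn
    have h2 := hf.zpow hx n
    rw [zpow_natCast, h1] at h2
    rcases mul_eq_zero.mp h2.symm with h3 | h3
    · exact absurd h3 (by exact_mod_cast hn.ne')
    · rw [h3]
      exact dvd_zero _
  · rw [eq_bot_iff]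
    intro x hx
    rw [Subgroup.mem_iInf] at hx
    rw [Subgroup.mem_bot]
    apply Subtype.ext
    apply hK
    intro i
    exact tw_map (θ := fun y : K => (y : P)) (fun _ _ _ _ => rfl) (fun y _ => y.2) i x (hx i)

/-- elements divisible by `m` in the free abelianization -/
lemma exists_root {U : Subgroup P} (hfg : Group.FG U) {m : ℕ} {x : P} (hx : x ∈ step m U) :
    ∃ y ∈ U, ∃ n : ℕ, 0 < n ∧ (x * (y ^ m)⁻¹) ^ n ∈ ⁅U, U⁆ := by
  classical
  let A := Additive (Abelianization U)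
  have hA : AddGroup.FG A := by
    have h1 : Group.FG (Abelianization U) := inferInstanceAs (Group.FG (U ⧸ _))
    infer_instance
  have hAf : Module.Finite ℤ A := Module.Finite.iff_addGroup_fg.mpr hA
  let T : Submodule ℤ A := Submodule.torsion ℤ A
  let B := Module.Free.chooseBasis ℤ (A ⧸ T)
  let a : U → A := fun u => Additive.ofMul (Abelianization.of u)
  have ha : ∀ u v, a (u * v) = a u + a v := fun u v => by
    show Additive.ofMul (Abelianization.of (u * v)) = _
    rw [map_mul]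
    rfl
  let F : Module.Free.ChooseBasisIndex ℤ (A ⧸ T) → P → ℤ := fun k p =>
    if hp : p ∈ U then B.repr (T.mkQ (a ⟨p, hp⟩)) k else 0
  have hF : ∀ k, HomOn U (F k) := by
    intro k p hp q hq
    show (if hp : p * q ∈ U then B.repr (T.mkQ (a ⟨p * q, hp⟩)) k else 0) =
      (if hp : p ∈ U then B.repr (T.mkQ (a ⟨p, hp⟩)) k else 0) +
      (if hp : q ∈ U then B.repr (T.mkQ (a ⟨q, hp⟩)) k else 0)
    rw [dif_pos hp, dif_pos hq, dif_pos (U.mul_mem hp hq)]
    have h1 : (⟨p * q, U.mul_mem hp hq⟩ : U) = ⟨p, hp⟩ * ⟨q, hq⟩ := rfl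
    rw [h1, ha, map_add, map_add]
    rfl
  have hxU : x ∈ U := hx.1
  have hdiv : ∀ k, ∃ c : ℤ, B.repr (T.mkQ (a ⟨x, hxU⟩)) k = m * c := by
    intro k
    have h1 := hx.2 (F k) (hF k)
    have h2 : F k x = B.repr (T.mkQ (a ⟨x, hxU⟩)) k := dif_pos hxU
    rw [h2] at h1
    exact h1
  choose c hc using hdiv
  let yb : A ⧸ T := ∑ k, c k • B k
  have hyb : T.mkQ (a ⟨x, hxU⟩) = (m : ℤ) • yb := by
    rw [← B.sum_repr (T.mkQ (a ⟨x, hxU⟩)), Finset.smul_sum]
    refine Finset.sum_congr rfl fun k _ => ?_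
    rw [hc, mul_smul]
  obtain ⟨ya, hya⟩ := T.mkQ_surjective yb
  obtain ⟨y, hy⟩ : ∃ y : U, a y = ya := by
    obtain ⟨y, hy⟩ := QuotientGroup.mk_surjective (Additive.toMul ya)
    exact ⟨y, congrArg Additive.ofMul hy⟩
  have hpow : ∀ (u : U) (k : ℕ), a (u ^ k) = k • a u := by
    intro u k
    show Additive.ofMul (Abelianization.of (u ^ k)) = _
    rw [map_pow]
    rfl
  have hinv : ∀ u : U, a u⁻¹ = - a u := by
    intro u
    show Additive.ofMul (Abelianization.of u⁻¹) = _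
    rw [map_inv]
    rfl
  have h1 : a (⟨x, hxU⟩ * (y ^ m)⁻¹) ∈ T := by
    rw [← Submodule.ker_mkQ T, LinearMap.mem_ker, ha, hinv, hpow, hy, map_add, map_neg, hyb,
      map_nsmul, hya]
    simp
  obtain ⟨r, hr⟩ := (Submodule.mem_torsion_iff _).mp h1
  have hr0 : (r : ℤ) ≠ 0 := nonZeroDivisors.ne_zero r.2
  refine ⟨y, y.2, (r : ℤ).natAbs, Int.natAbs_pos.mpr hr0, ?_⟩
  have h2 : a ((⟨x, hxU⟩ * (y ^ m)⁻¹) ^ (r : ℤ).natAbs) = 0 := by
    rw [hpow]
    have h3 : (r : ℤ) • a (⟨x, hxU⟩ * (y ^ m)⁻¹) = 0 := hr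
    rcases Int.natAbs_eq (r : ℤ) with h4 | h4
    · rw [h4] at h3
      rw [← natCast_zsmul]
      exact h3
    · rw [h4, neg_smul, neg_eq_zero] at h3
      rw [← natCast_zsmul]
      exact h3
  have h3 : (⟨x, hxU⟩ * (y ^ m)⁻¹) ^ (r : ℤ).natAbs ∈ commutator U := by
    have h4 : Abelianization.of ((⟨x, hxU⟩ * (y ^ m)⁻¹) ^ (r : ℤ).natAbs) = 1 := h2
    rw [← MonoidHom.mem_ker, Abelianization.ker_of] at h4
    exact h4
  rw [← Subgroup.map_subtype_commutator]
  exact ⟨_, h3, rfl⟩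

/-- the canonical tower of an RFRS group -/
lemma IsRFRS.top (h : IsRFRS P) : TT (⊤ : Subgroup P) := by
  obtain ⟨hfg, U, hU0, hUn, hUf, hUle, hUr, hUi⟩ := h
  have key : ∀ j, ∃ i, tw (⊤ : Subgroup P) i ≤ U j := by
    intro j
    induction j with
    | zero => exact ⟨0, by rw [hU0]; exact le_top⟩
    | succ j ih =>
      obtain ⟨i, hi⟩ := ih
      have hfgj : Group.FG (U j) := by
        have := hUf j
        exact Subgroup.fg_of_index_ne_zero _
      let e := ((U (j + 1)).subgroupOf (U j)).index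
      have he : e ≠ 0 := by
        have := hUf (j + 1)
        exact Subgroup.FiniteIndex.index_ne_zero
      have hi' : tw (⊤ : Subgroup P) (max i e) ≤ U j := (tw_anti _ (le_max_left _ _)).trans hi
      refine ⟨max i e + 1, fun x hx => ?_⟩
      have hxs : x ∈ step (ex (max i e)) (U j) :=
        ⟨hi' hx.1, fun f hf => hx.2 f (hf.mono hi')⟩
      obtain ⟨y, hy, n, hn, hxy⟩ := exists_root hfgj hxs
      have hem : e ∣ ex (max i e) := dvd_ex (Nat.pos_of_ne_zero he) (le_max_right _ _)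
      have hym : y ^ ex (max i e) ∈ U (j + 1) := by
        have hNn : ((U (j + 1)).subgroupOf (U j)).Normal := by
          have := hUn (j + 1)
          infer_instance
        have h1 := Subgroup.pow_index_mem ((U (j + 1)).subgroupOf (U j)) (⟨y, hy⟩ : U j)
        have h2 : y ^ e ∈ U (j + 1) := h1
        obtain ⟨q, hq⟩ := hem
        rw [hq, pow_mul]
        exact (U (j + 1)).pow_mem h2 q
      have h3 := hUr j (x * (y ^ ex (max i e))⁻¹)
        ((U j).mul_mem (hi' hx.1) ((U j).inv_mem ((U j).pow_mem hy _))) n hn hxy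
      have h4 := (U (j + 1)).mul_mem h3 hym
      rwa [inv_mul_cancel_right] at h4
  intro x hx
  have h1 : x ∈ ⨅ i, U i := by
    rw [Subgroup.mem_iInf]
    intro j
    obtain ⟨i, hi⟩ := key j
    exact hi (hx i)
  rw [hUi, Subgroup.mem_bot] at h1
  exact h1

lemma IsRFRS.TT {K : Subgroup P} (h : IsRFRS K) : TT K := by
  classical
  intro x hx
  have hxK : x ∈ K := hx 0
  let θ : P → K := fun y => if hy : y ∈ K then ⟨y, hy⟩ else 1
  have hθ : ∀ y (hy : y ∈ K), θ y = ⟨y, hy⟩ := fun y hy => dif_pos hy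
  have h1 : θ x = 1 := h.top _ fun i => tw_map (K := K) (L := ⊤) (θ := θ) (by
    intro a ha b hb
    rw [hθ a ha, hθ b hb, hθ _ (K.mul_mem ha hb)]
    rfl) (fun _ _ => Subgroup.mem_top _) i x (hx i)
  rw [hθ x hxK] at h1
  exact congrArg Subtype.val h1

end Pool.Agent.K4H11.RFRS
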